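import Pool.Agent.Helper280.Ops

/-!
Construction of the bounded operator `A`.
-/

set_option autoImplicit false

namespace Pool.Agent.Helper280

open scoped InnerProductSpace ENNReal
open ContinuousLinearMap

/-- exponents -/
def cc (n : ℕ) : ℕ := 2 * n ^ 2 + 4 * n + 1
/-- exponents -/
def ff (n : ℕ) : ℕ := 2 * n ^ 2 + 3 * n + 1
/-- weights `4^{n²+n}` -/
noncomputable def al (n : ℕ) : ℝ := 4 ^ (n ^ 2 + n)
/-- weights `4^{-m²}` -/
noncomputable def ww (m : ℕ) : ℝ := (1 / 4) ^ (m ^ 2)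

lemma al_pos (n : ℕ) : 0 < al n := by unfold al; positivity
lemma ww_pos (n : ℕ) : 0 < ww n := by unfold ww; positivity
lemma cc_pos (n : ℕ) : 1 ≤ cc n := by unfold cc; omega
lemma ff_pos (n : ℕ) : 1 ≤ ff n := by unfold ff; omega
lemma cc_eq (n : ℕ) : cc n = ff n + n := by unfold cc ff; ring
lemma ff_le_cc {m n : ℕ} (h : m ≤ n) : ff m ≤ cc n := by
  unfold ff cc
  have : m ^ 2 ≤ n ^ 2 := Nat.pow_le_pow_left h 2
  omega

lemma ff_strictMono : StrictMono ff := by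
  intro a b h
  unfold ff
  have : a ^ 2 < b ^ 2 := Nat.pow_lt_pow_left h (by norm_num)
  omega

lemma cc_strictMono : StrictMono cc := by
  intro a b h
  unfold cc
  have : a ^ 2 < b ^ 2 := Nat.pow_lt_pow_left h (by norm_num)
  omega

lemma quarter_pow (n : ℕ) : (1 / 4 : ℝ) ^ n = 1 / 2 ^ (2 * n) := by
  rw [pow_mul, one_div_pow]; norm_num
lemma sixteenth_pow (n : ℕ) : (1 / 16 : ℝ) ^ n = 1 / 2 ^ (4 * n) := by
  rw [pow_mul, one_div_pow]; norm_num
lemma four_pow (n : ℕ) : (4 : ℝ) ^ n = 2 ^ (2 * n) := by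
  rw [pow_mul]; norm_num
lemma half_pow (n : ℕ) : (1 / 2 : ℝ) ^ n = 1 / 2 ^ n := by
  rw [one_div_pow]

lemma two_pow_le {a b : ℕ} (h : a ≤ b) : (2 : ℝ) ^ a ≤ 2 ^ b := pow_le_pow_right₀ (by norm_num) h

lemma al_mul_ww (n : ℕ) : al n * ww n = 4 ^ n := by
  unfold al ww
  rw [pow_add, mul_assoc, mul_comm ((4 : ℝ) ^ n), ← mul_assoc, ← mul_pow]
  norm_num

lemma ww_le (m : ℕ) : ww m ≤ (1 / 2) ^ m := by
  unfold ww
  rw [quarter_pow, half_pow]
  apply one_div_le_one_div_of_le (by positivity)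
  exact two_pow_le (by nlinarith)

/-- `H = h(S^*)` -/
noncomputable def HOp : HH →L[ℂ] HH := ∑' m, (ww m : ℂ) • U (ff m)

lemma norm_op_smul (a : ℝ) (ha : 0 ≤ a) (T : HH →L[ℂ] HH) : ‖(a : ℂ) • T‖ = a * ‖T‖ := by
  rw [norm_smul, Complex.norm_real, Real.norm_eq_abs, abs_of_nonneg ha]

lemma geo_summable (C : ℝ) : Summable (fun m : ℕ => C * (1 / 2 : ℝ) ^ m) :=
  (summable_geometric_of_lt_one (by norm_num) (by norm_num)).mul_left C

lemma HOp_hasSum : HasSum (fun m => (ww m : ℂ) • U (ff m)) HOp := by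
  apply Summable.hasSum
  refine Summable.of_norm_bounded (geo_summable 2) (fun m => ?_)
  rw [norm_op_smul _ (ww_pos m).le]
  have h1 := ww_le m
  have h2 := U_norm (ff m)
  have h3 := ww_pos m
  calc ww m * ‖U (ff m)‖ ≤ (1 / 2) ^ m * 2 := mul_le_mul h1 h2 (norm_nonneg _) (by positivity)
    _ = 2 * (1 / 2) ^ m := by ring

lemma HOp_hasSum_apply (x : HH) : HasSum (fun m => (ww m : ℂ) • U (ff m) x) (HOp x) := by
  have h := HOp_hasSum.map (ContinuousLinearMap.apply ℂ HH x) (ContinuousLinearMap.continuous _)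
  exact h

/-- `4^n κ(c n, f n)` -/
noncomputable def mu (n : ℕ) : ℝ := 4 ^ n * kap (cc n) (ff n)

lemma mu_nonneg (n : ℕ) : 0 ≤ mu n := mul_nonneg (by positivity) (kap_nonneg _ _)

lemma mu_le_one (n : ℕ) : mu n ≤ 1 := by
  unfold mu
  have h := kap_le (cc n) (ff n)
  have h2 : dd (cc n) (ff n) = (1 / 4) ^ n := by
    unfold dd
    congr 1
    have := cc_eq n
    omega
  rw [h2] at h
  calc (4 : ℝ) ^ n * kap (cc n) (ff n) ≤ 4 ^ n * (1 / 4) ^ n := mul_le_mul_of_nonneg_left h (by positivity)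
    _ = 1 := by rw [← mul_pow]; norm_num

/-- the terms of the double series -/
noncomputable def term (n m : ℕ) : HH →L[ℂ] HH :=
  (al n * ww m : ℂ) • (V (cc n) * U (ff m)) -
    (if m = n then (mu n : ℂ) • rk (v (cc n)) (v (ff n)) else 0)

lemma rkv_norm (d e : ℕ) : ‖rk (v d) (v e)‖ ≤ 1 := by
  refine (rk_norm _ _).trans ?_
  have h1 := v_norm d
  have h2 := v_norm e
  have h3 := norm_nonneg (v d)
  have h4 := norm_nonneg (v e)
  nlinarith

lemma term_norm (n m : ℕ) : ‖term n m‖ ≤ 3 * (1 / 2) ^ n * (1 / 2) ^ m := by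
  have hcast : (al n * ww m : ℂ) = ((al n * ww m : ℝ) : ℂ) := by push_cast; ring
  unfold term
  rw [hcast]
  have hpos : 0 ≤ al n * ww m := (mul_pos (al_pos n) (ww_pos m)).le
  rcases lt_trichotomy m n with h | h | h
  · rw [if_neg h.ne, sub_zero, norm_op_smul _ hpos, VU_comm]
    have h1 : ‖U (ff m) * V (cc n) + (kap (cc n) (ff m) : ℂ) • rk (v (cc n)) (v (ff m))‖ ≤
        4 * (1 / 4) ^ (cc n - ff m) := by
      have hle := ff_le_cc h.le
      have e1 := UV_norm (ff m) (cc n) (cc_pos n)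
      have e2 : ‖(kap (cc n) (ff m) : ℂ) • rk (v (cc n)) (v (ff m))‖ ≤ (1 / 4) ^ (cc n - ff m) := by
        rw [norm_op_smul _ (kap_nonneg _ _)]
        have e3 := kap_le (cc n) (ff m)
        have e4 : dd (cc n) (ff m) = (1 / 4) ^ (cc n - ff m) := by
          unfold dd; congr 1; omega
        rw [e4] at e3
        have e5 := rkv_norm (cc n) (ff m)
        calc kap (cc n) (ff m) * ‖rk (v (cc n)) (v (ff m))‖ ≤ (1 / 4) ^ (cc n - ff m) * 1 :=
              mul_le_mul e3 e5 (norm_nonneg _) (by positivity)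
          _ = _ := mul_one _
      have e6 : 3 * tt (cc n) / tt (ff m) ≤ 3 * (1 / 4) ^ (cc n - ff m) := by
        rw [div_le_iff₀ (tt_pos _)]
        have e7 : tt (cc n) = (1 / 16) ^ (cc n - ff m) * tt (ff m) := by
          unfold tt; rw [← pow_add]; congr 1; omega
        rw [e7]
        have e8 : (1 / 16 : ℝ) ^ (cc n - ff m) ≤ (1 / 4) ^ (cc n - ff m) :=
          pow_le_pow_left₀ (by norm_num) (by norm_num) _
        have e9 := mul_le_mul_of_nonneg_right e8 (tt_pos (ff m)).le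
        linarith
      refine (norm_add_le _ _).trans ?_
      linarith
    refine (mul_le_mul_of_nonneg_left h1 hpos).trans ?_
    unfold al ww
    rw [quarter_pow, quarter_pow, half_pow, half_pow, four_pow]
    have e1 : (2 : ℝ) ^ (2 * (n ^ 2 + n)) * (1 / 2 ^ (2 * m ^ 2)) * (4 * (1 / 2 ^ (2 * (cc n - ff m)))) =
        2 ^ (2 * (n ^ 2 + n) + 2) / 2 ^ (2 * m ^ 2 + 2 * (cc n - ff m)) := by
      have a1 : (2 : ℝ) ^ (2 * (n ^ 2 + n) + 2) = 2 ^ (2 * (n ^ 2 + n)) * 4 := by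
        rw [pow_add]; norm_num
      rw [a1, pow_add _ (2 * m ^ 2)]
      field_simp
    rw [e1]
    have e2 : (3 : ℝ) * (1 / 2 ^ n) * (1 / 2 ^ m) = 3 / 2 ^ (n + m) := by
      rw [pow_add]; field_simp
    rw [e2, div_le_div_iff₀ (by positivity) (by positivity), ← pow_add]
    have e3 : (2 : ℝ) ^ (2 * (n ^ 2 + n) + 2 + (n + m)) ≤ 2 ^ (2 * m ^ 2 + 2 * (cc n - ff m)) := by
      apply two_pow_le
      have hle := ff_le_cc h.le
      obtain ⟨j, rfl⟩ : ∃ j, n = m + 1 + j := ⟨n - m - 1, by omega⟩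
      zify [hle]
      unfold cc ff
      push_cast
      nlinarith [mul_nonneg (Int.natCast_nonneg m) (Int.natCast_nonneg j), sq_nonneg (j : ℤ),
        Int.natCast_nonneg j, Int.natCast_nonneg m]
    have e4 : (0 : ℝ) < 2 ^ (2 * m ^ 2 + 2 * (cc n - ff m)) := by positivity
    linarith
  · subst h
    rw [if_pos rfl, al_mul_ww, VU_comm]
    have e0 : ((4 ^ m : ℝ) : ℂ) • (U (ff m) * V (cc m) + (kap (cc m) (ff m) : ℂ) • rk (v (cc m)) (v (ff m))) -
        (mu m : ℂ) • rk (v (cc m)) (v (ff m)) = ((4 ^ m : ℝ) : ℂ) • (U (ff m) * V (cc m)) := by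
      have : (mu m : ℂ) = ((4 ^ m : ℝ) : ℂ) * (kap (cc m) (ff m) : ℂ) := by
        unfold mu; push_cast; ring
      rw [this]
      module
    rw [e0, norm_op_smul _ (by positivity)]
    have e1 := UV_norm (ff m) (cc m) (cc_pos m)
    refine (mul_le_mul_of_nonneg_left e1 (by positivity)).trans ?_
    have e2 : tt (cc m) / tt (ff m) = (1 / 16) ^ m := by
      unfold tt
      rw [cc_eq, pow_add]
      field_simp
    rw [mul_div_assoc, e2]
    have e3 : (4 : ℝ) ^ m * (3 * (1 / 16) ^ m) = 3 * (1 / 2) ^ m * (1 / 2) ^ m := by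
      rw [mul_comm, mul_assoc, ← mul_pow, mul_assoc, ← mul_pow]; norm_num
    exact e3.le
  · rw [if_neg h.ne', sub_zero, norm_op_smul _ hpos]
    have h1 : ‖V (cc n) * U (ff m)‖ ≤ 2 := by
      refine (opNorm_comp_le _ _).trans ?_
      have := V_norm (cc n)
      have := U_norm (ff m)
      have := norm_nonneg (V (cc n))
      have := norm_nonneg (U (ff m))
      nlinarith
    refine (mul_le_mul_of_nonneg_left h1 hpos).trans ?_
    unfold al ww
    rw [quarter_pow, half_pow, half_pow, four_pow]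
    have e1 : (2 : ℝ) ^ (2 * (n ^ 2 + n)) * (1 / 2 ^ (2 * m ^ 2)) * 2 =
        2 * (2 ^ (2 * (n ^ 2 + n)) / 2 ^ (2 * m ^ 2)) := by
      field_simp
    rw [e1]
    have e2 : (3 : ℝ) * (1 / 2 ^ n) * (1 / 2 ^ m) = 3 * (1 / 2 ^ (n + m)) := by
      rw [pow_add]; field_simp
    rw [e2]
    have e3 : (2 : ℝ) ^ (2 * (n ^ 2 + n)) / 2 ^ (2 * m ^ 2) ≤ 1 / 2 ^ (n + m) := by
      rw [div_le_div_iff₀ (by positivity) (by positivity), ← pow_add, one_mul]
      apply two_pow_le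
      nlinarith
    have e4 : (0 : ℝ) < 1 / 2 ^ (n + m) := by positivity
    linarith

/-- the norm convergent part -/
noncomputable def Xn (n : ℕ) : HH →L[ℂ] HH :=
  (al n : ℂ) • (V (cc n) * HOp) - (mu n : ℂ) • rk (v (cc n)) (v (ff n))

lemma Xn_hasSum (n : ℕ) : HasSum (fun m => term n m) (Xn n) := by
  have h1 : HasSum (fun m => (al n * ww m : ℂ) • (V (cc n) * U (ff m))) ((al n : ℂ) • (V (cc n) * HOp)) := by
    have h2 := (HOp_hasSum.mul_left (V (cc n))).const_smul (al n : ℂ)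
    refine h2.congr_fun ?_ |> fun h => h
    intro m
    rw [mul_smul_comm, smul_smul]
  have h3 : HasSum (fun m => if m = n then (mu n : ℂ) • rk (v (cc n)) (v (ff n)) else 0)
      ((mu n : ℂ) • rk (v (cc n)) (v (ff n))) := hasSum_ite_eq n _
  exact h1.sub h3

lemma Xn_norm (n : ℕ) : ‖Xn n‖ ≤ 6 * (1 / 2) ^ n := by
  rw [← (Xn_hasSum n).tsum_eq]
  have h : HasSum (fun m : ℕ => 3 * (1 / 2 : ℝ) ^ n * (1 / 2) ^ m) (3 * (1 / 2 : ℝ) ^ n * 2) :=
    hasSum_geometric_two.mul_left _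
  refine (tsum_of_norm_bounded h (fun m => term_norm n m)).trans ?_
  linarith

/-- the norm convergent part, summed -/
noncomputable def XX : HH →L[ℂ] HH := ∑' n, Xn n

lemma XX_hasSum : HasSum Xn XX := by
  apply Summable.hasSum
  exact Summable.of_norm_bounded (geo_summable 6) (fun n => Xn_norm n)

/-! ### Analysis operators -/

lemma an_summable (f : ℕ → ℕ) (hf : Function.Injective f) (nu : ℕ → ℝ) (h0 : ∀ n, 0 ≤ nu n)
    (h1 : ∀ n, nu n ≤ 1) (x : HH) :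
    Summable (fun n => ‖(nu n : ℂ) * ⟪v (f n), x⟫_ℂ‖ ^ 2) ∧
      ∑' n, ‖(nu n : ℂ) * ⟪v (f n), x⟫_ℂ‖ ^ 2 ≤ 2 * ‖x‖ ^ 2 := by
  have hle : ∀ F : Finset ℕ, ∑ n ∈ F, ‖(nu n : ℂ) * ⟪v (f n), x⟫_ℂ‖ ^ 2 ≤ 2 * ‖x‖ ^ 2 := by
    intro F
    refine le_trans (Finset.sum_le_sum (fun n _ => ?_)) (bessel' F f hf.injOn x)
    rw [norm_mul, Complex.norm_real, Real.norm_eq_abs, abs_of_nonneg (h0 n)]
    have := h0 n
    have := h1 n
    have h3 := norm_nonneg (⟪v (f n), x⟫_ℂ)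
    have h4 : nu n * ‖⟪v (f n), x⟫_ℂ‖ ≤ ‖⟪v (f n), x⟫_ℂ‖ := by nlinarith
    exact pow_le_pow_left₀ (by positivity) h4 2
  have hs : Summable (fun n => ‖(nu n : ℂ) * ⟪v (f n), x⟫_ℂ‖ ^ 2) :=
    summable_of_sum_le (fun _ => by positivity) hle
  exact ⟨hs, hs.tsum_le_of_sum_le hle⟩

/-- analysis operator -/
noncomputable def An (f : ℕ → ℕ) (hf : Function.Injective f) (nu : ℕ → ℝ) (h0 : ∀ n, 0 ≤ nu n)
    (h1 : ∀ n, nu n ≤ 1) : HH →L[ℂ] HH :=
  LinearMap.mkContinuous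
    { toFun := fun x => ⟨fun n => (nu n : ℂ) * ⟪v (f n), x⟫_ℂ,
        memlp_of_sq _ (an_summable f hf nu h0 h1 x).1⟩
      map_add' := by
        intro x y
        apply HH_ext
        intro n
        simp only [inner_add_right, lp.coeFn_add, Pi.add_apply]
        ring
      map_smul' := by
        intro c x
        apply HH_ext
        intro n
        simp only [inner_smul_right, lp.coeFn_smul, Pi.smul_apply, smul_eq_mul, RingHom.id_apply]
        ring } 2 (by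
      intro x
      have h := an_summable f hf nu h0 h1 x
      have h2 := norm_sq_hasSum (⟨fun n => (nu n : ℂ) * ⟪v (f n), x⟫_ℂ, memlp_of_sq _ h.1⟩ : HH)
      have h3 : ‖(⟨fun n => (nu n : ℂ) * ⟪v (f n), x⟫_ℂ, memlp_of_sq _ h.1⟩ : HH)‖ ^ 2 ≤ (2 * ‖x‖) ^ 2 := by
        rw [← h2.tsum_eq]
        refine h.2.trans ?_
        nlinarith [sq_nonneg ‖x‖]
      exact (pow_le_pow_iff_left₀ (norm_nonneg _) (by positivity) two_ne_zero).mp h3)

lemma An_apply (f : ℕ → ℕ) (hf : Function.Injective f) (nu : ℕ → ℝ) (h0 : ∀ n, 0 ≤ nu n)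
    (h1 : ∀ n, nu n ≤ 1) (x : HH) (n : ℕ) :
    (An f hf nu h0 h1 x : ℕ → ℂ) n = (nu n : ℂ) * ⟪v (f n), x⟫_ℂ := rfl

/-- the strongly convergent part -/
noncomputable def ZZ : HH →L[ℂ] HH :=
  adjoint (An cc cc_strictMono.injective (fun _ => 1) (fun _ => zero_le_one) (fun _ => le_refl _)) ∘L
    An ff ff_strictMono.injective mu mu_nonneg mu_le_one

lemma ZZ_hasSum (x y : HH) :
    HasSum (fun n => ⟪y, (mu n : ℂ) • rk (v (cc n)) (v (ff n)) x⟫_ℂ) ⟪y, ZZ x⟫_ℂ := by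
  unfold ZZ
  rw [comp_apply, adjoint_inner_right]
  have h := lp.hasSum_inner (𝕜 := ℂ)
    (An cc cc_strictMono.injective (fun _ => 1) (fun _ => zero_le_one) (fun _ => le_refl _) y)
    (An ff ff_strictMono.injective mu mu_nonneg mu_le_one x)
  refine h.congr_fun (fun n => ?_) |> fun h => h
  rw [An_apply, An_apply, rk_apply, inner_smul_right, inner_smul_right]
  have e1 : ⟪y, v (cc n)⟫_ℂ = starRingEnd ℂ ⟪v (cc n), y⟫_ℂ := (inner_conj_symm _ _).symm
  rw [e1]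
  simp
  ring

/-- the operator -/
noncomputable def AA : HH →L[ℂ] HH := HOp + XX + ZZ

lemma AA_hasSum (x y : HH) :
    HasSum (fun n => ⟪y, (al n : ℂ) • V (cc n) (HOp x)⟫_ℂ) (⟪y, AA x⟫_ℂ - ⟪y, HOp x⟫_ℂ) := by
  have h1 : HasSum (fun n => ⟪y, Xn n x⟫_ℂ) ⟪y, XX x⟫_ℂ := by
    have h2 := XX_hasSum.map (ContinuousLinearMap.apply ℂ HH x) (ContinuousLinearMap.continuous _)
    have h3 := h2.map (innerSL ℂ y) (ContinuousLinearMap.continuous _)
    exact h3
  have h2 := h1.add (ZZ_hasSum x y)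
  have e1 : ⟪y, XX x⟫_ℂ + ⟪y, ZZ x⟫_ℂ = ⟪y, AA x⟫_ℂ - ⟪y, HOp x⟫_ℂ := by
    have : AA x = HOp x + XX x + ZZ x := rfl
    rw [this, inner_add_right, inner_add_right]
    ring
  rw [e1] at h2
  refine h2.congr_fun (fun n => ?_) |> fun h => h
  have e2 : Xn n x = (al n : ℂ) • V (cc n) (HOp x) - (mu n : ℂ) • rk (v (cc n)) (v (ff n)) x := rfl
  rw [← inner_add_right, e2]
  congr 1
  abel

end Pool.Agent.Helper280
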