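import Pool.Agent.Helper280.Sym

/-!
The commutator criterion and the lower bound.
-/

set_option autoImplicit false

namespace Pool.Agent.Helper280

open scoped InnerProductSpace ENNReal
open ContinuousLinearMap Filter Topology

lemma comm_P (B : HH →L[ℂ] HH) (L : HH →L[ℂ] ℂ) (G : HH) (hB : ∀ x, B (S x) = S (B x) + L x • G)
    (d : ℕ) (x : HH) :
    B (P (rr d) x) = P (rr d) (B x) + (rr d : ℂ) • (L (P (rr d) x) • P (rr d) G) := by
  have h1 := P_eq (rr_nonneg d) (rr_lt_one d) x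
  set y := P (rr d) x with hy
  have h2 : B y = B x + (rr d : ℂ) • (S (B y) + L y • G) := by
    have h3 := congrArg B h1
    rw [map_add, map_smul, hB] at h3
    exact h3
  have h4 : ∀ z : HH, P (rr d) (z - (rr d : ℂ) • S z) = z := by
    intro z
    have h5 : (P (rr d) * (1 - (rr d : ℂ) • S)) z = z := by
      rw [P_mul (rr_nonneg d) (rr_lt_one d)]; rfl
    exact h5
  have h6 : B y - (rr d : ℂ) • S (B y) = B x + (rr d : ℂ) • (L y • G) := by
    conv_lhs =>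
      lhs
      rw [h2]
    rw [smul_add]
    abel
  have h7 := h4 (B y)
  rw [h6, map_add, map_smul, map_smul] at h7
  exact h7.symm

lemma comm_V (B : HH →L[ℂ] HH) (L : HH →L[ℂ] ℂ) (G : HH) (hB : ∀ x, B (S x) = S (B x) + L x • G)
    (d : ℕ) (x : HH) :
    B (V d x) - V d (B x) = ((rr d : ℂ) * L (P (rr d) x)) • V d G := by
  rw [V_apply, V_apply, V_apply, map_smul, comm_P B L G hB]
  module

lemma gm_self (d : ℕ) : gm d d = 1 / (1 + rr d) := by
  unfold gm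
  have h1 : 1 - rr d * rr d = tt d * (1 + rr d) := by rw [tt_eq]; ring
  have h2 := tt_pos d
  have h3 := rr_nonneg d
  rw [h1, ← tt_eq_sq]
  field_simp

lemma v_norm_ge (d : ℕ) : 1 / 2 ≤ ‖v d‖ := by
  have h : ((‖v d‖ ^ 2 : ℝ) : ℂ) = (gm d d : ℂ) := by
    rw [← inner_v, inner_self_eq_norm_sq_to_K]; norm_cast
  have h2 : ‖v d‖ ^ 2 = gm d d := by exact_mod_cast h
  have h3 : 1 / 2 ≤ gm d d := by
    rw [gm_self]
    apply one_div_le_one_div_of_le
    · linarith [rr_nonneg d]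
    · linarith [rr_lt_one d]
  have h4 : (1 / 2 : ℝ) ^ 2 ≤ ‖v d‖ ^ 2 := by rw [h2]; linarith
  exact (pow_le_pow_iff_left₀ (by norm_num) (norm_nonneg _) two_ne_zero).mp h4

/-- averaged resolvents -/
noncomputable def F (n : ℕ) : HH →L[ℂ] HH := ((1 / (n : ℝ) : ℝ) : ℂ) • ∑ k ∈ Finset.range n, V (cc n - k)

lemma F_norm (n : ℕ) : ‖F n‖ ≤ 1 := by
  unfold F
  rw [norm_op_smul _ (by positivity)]
  have h1 : ‖∑ k ∈ Finset.range n, V (cc n - k)‖ ≤ n := by
    refine (norm_sum_le _ _).trans ?_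
    refine (Finset.sum_le_sum (fun k _ => V_norm _)).trans ?_
    simp
  rcases Nat.eq_zero_or_pos n with h | h
  · subst h; simp
  · have hn : (0 : ℝ) < n := by exact_mod_cast h
    calc 1 / (n : ℝ) * ‖∑ k ∈ Finset.range n, V (cc n - k)‖ ≤ 1 / (n : ℝ) * n :=
          mul_le_mul_of_nonneg_left h1 (by positivity)
      _ = 1 := by field_simp

lemma F_comm_apply (B : HH →L[ℂ] HH) (n : ℕ) (x : HH) :
    (B * F n - F n * B) x = ((1 / (n : ℝ) : ℝ) : ℂ) •
      ∑ k ∈ Finset.range n, (B (V (cc n - k) x) - V (cc n - k) (B x)) := by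
  have h1 : (B * F n - F n * B) x = B (F n x) - F n (B x) := rfl
  have h2 : ∀ z, F n z = ((1 / (n : ℝ) : ℝ) : ℂ) • ∑ k ∈ Finset.range n, V (cc n - k) z := by
    intro z
    unfold F
    rw [smul_apply, sum_apply]
  rw [h1, h2, h2, map_smul, map_sum, ← smul_sub, ← Finset.sum_sub_distrib]

/-- Toeplitz operators asymptotically commute with `F n`. -/
lemma toep_comm (T : HH →L[ℂ] HH) (hT : ∀ x, Sa (T (S x)) = T x) (n : ℕ) (hn : 1 ≤ n) :
    ‖T * F n - F n * T‖ ≤ 6 * ‖T‖ / Real.sqrt n := by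
  have hn' : (0 : ℝ) < n := by exact_mod_cast hn
  have hB : ∀ x, T (S x) = S (T x) + ((innerSL ℂ (eb 0)) ∘L T ∘L S) x • eb 0 := by
    intro x
    have h1 : S (Sa (T (S x))) = S (T x) := by rw [hT]
    rw [S_Sa] at h1
    rw [← h1]
    show T (S x) = T (S x) - ⟪eb 0, T (S x)⟫_ℂ • eb 0 + ⟪eb 0, T (S x)⟫_ℂ • eb 0
    abel
  refine opNorm_le_bound _ (by positivity) (fun x => ?_)
  set co : ℕ → ℂ := fun k => (rr (cc n - k) : ℂ) *
    ((innerSL ℂ (eb 0)) ∘L T ∘L S) (P (rr (cc n - k)) x) * (((1 / 4 : ℝ) ^ (cc n - k) : ℝ) : ℂ) with hco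
  have h1 : ∀ k, T (V (cc n - k) x) - V (cc n - k) (T x) = co k • v (cc n - k) := by
    intro k
    rw [comm_V T _ _ hB, V_eb, smul_smul]
  have h2 : ∀ k, ‖co k‖ ≤ 4 * (‖T‖ * ‖x‖) := by
    intro k
    have e1 : ‖co k • v (cc n - k)‖ ≤ 2 * (‖T‖ * ‖x‖) := by
      rw [← h1]
      refine (norm_sub_le _ _).trans ?_
      have e2 : ‖T (V (cc n - k) x)‖ ≤ ‖T‖ * ‖x‖ := by
        refine (T.le_opNorm _).trans (mul_le_mul_of_nonneg_left ?_ (norm_nonneg _))
        refine ((V (cc n - k)).le_opNorm x).trans ?_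
        have := V_norm (cc n - k)
        nlinarith [norm_nonneg x]
      have e3 : ‖V (cc n - k) (T x)‖ ≤ ‖T‖ * ‖x‖ := by
        refine ((V (cc n - k)).le_opNorm _).trans ?_
        have e4 := V_norm (cc n - k)
        have e5 := T.le_opNorm x
        have e6 := norm_nonneg (T x)
        nlinarith [norm_nonneg x]
      linarith
    rw [norm_smul] at e1
    have e2 := v_norm_ge (cc n - k)
    nlinarith [norm_nonneg (co k)]
  have hinj : Set.InjOn (fun k => cc n - k) (Finset.range n : Set ℕ) := by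
    intro a ha b hb hab
    simp only [Finset.coe_range, Set.mem_Iio] at ha hb
    dsimp only at hab
    have : n ≤ cc n := by unfold cc; nlinarith
    omega
  have h3 := bessel (Finset.range n) (fun k => cc n - k) hinj co
  have h4 : ∑ i ∈ Finset.range n, ‖co i‖ ^ 2 ≤ n * (4 * (‖T‖ * ‖x‖)) ^ 2 := by
    have h5 : ∑ i ∈ Finset.range n, ‖co i‖ ^ 2 ≤ ∑ i ∈ Finset.range n, (4 * (‖T‖ * ‖x‖)) ^ 2 :=
      Finset.sum_le_sum (fun i _ => pow_le_pow_left₀ (norm_nonneg _) (h2 i) 2)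
    simpa using h5
  rw [F_comm_apply, norm_ofReal_smul _ (by positivity)]
  have h6 : ∑ k ∈ Finset.range n, (T (V (cc n - k) x) - V (cc n - k) (T x)) =
      ∑ k ∈ Finset.range n, co k • v (cc n - k) := Finset.sum_congr rfl (fun k _ => h1 k)
  rw [h6]
  have hsq : Real.sqrt n ^ 2 = n := Real.sq_sqrt hn'.le
  have hsp : 0 < Real.sqrt n := Real.sqrt_pos.mpr hn'
  have h7 : (1 / (n : ℝ) * ‖∑ k ∈ Finset.range n, co k • v (cc n - k)‖) ^ 2 ≤
      (6 * ‖T‖ / Real.sqrt n * ‖x‖) ^ 2 := by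
    calc (1 / (n : ℝ) * ‖∑ k ∈ Finset.range n, co k • v (cc n - k)‖) ^ 2
        = (1 / (n : ℝ)) ^ 2 * ‖∑ k ∈ Finset.range n, co k • v (cc n - k)‖ ^ 2 := by ring
      _ ≤ (1 / (n : ℝ)) ^ 2 * (2 * (n * (4 * (‖T‖ * ‖x‖)) ^ 2)) := by
          apply mul_le_mul_of_nonneg_left _ (by positivity)
          linarith
      _ = 32 * (‖T‖ * ‖x‖) ^ 2 / n := by field_simp; ring
      _ ≤ 36 * (‖T‖ * ‖x‖) ^ 2 / n := by
          apply div_le_div_of_nonneg_right _ hn'.le
          nlinarith [sq_nonneg (‖T‖ * ‖x‖)]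
      _ = (6 * ‖T‖ / Real.sqrt n * ‖x‖) ^ 2 := by
          have e9 : (6 * ‖T‖ / Real.sqrt n * ‖x‖) ^ 2 = 36 * (‖T‖ * ‖x‖) ^ 2 / Real.sqrt n ^ 2 := by
            field_simp
            ring
          rw [e9, hsq]
  exact (pow_le_pow_iff_left₀ (by positivity) (by positivity) two_ne_zero).mp h7

/-- the asymptotic commutation property -/
def AC (B : HH →L[ℂ] HH) : Prop := Tendsto (fun n => ‖B * F n - F n * B‖) atTop (𝓝 0)

lemma toep_AC (T : HH →L[ℂ] HH) (hT : ∀ x, Sa (T (S x)) = T x) : AC T := by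
  unfold AC
  have h1 : Tendsto (fun n : ℕ => 6 * ‖T‖ / Real.sqrt n) atTop (𝓝 0) :=
    tendsto_const_nhds.div_atTop (Real.tendsto_sqrt_atTop.comp tendsto_natCast_atTop_atTop)
  refine squeeze_zero' (Eventually.of_forall (fun _ => norm_nonneg _)) ?_ h1
  filter_upwards [eventually_ge_atTop 1] with n hn
  exact toep_comm T hT n hn

lemma clm_ext_eb {B : HH →L[ℂ] HH} (h : ∀ j, B (eb j) = 0) : B = 0 := by
  have h1 : ∀ x, adjoint B x = 0 := by
    intro x
    apply HH_ext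
    intro n
    rw [← inner_eb_left, adjoint_inner_right, h, inner_zero_left]
    rfl
  ext1 x
  refine ext_inner_right ℂ (fun y => ?_)
  rw [← adjoint_inner_right, h1, inner_zero_right]
  simp

lemma toep_of_matrix (T : HH →L[ℂ] HH) (f : ℤ → ℂ)
    (h : ∀ i j : ℕ, (T (eb j) : ℕ → ℂ) i = f ((i : ℤ) - (j : ℤ))) (x : HH) : Sa (T (S x)) = T x := by
  have h1 : Sa ∘L T ∘L S - T = 0 := by
    apply clm_ext_eb
    intro j
    apply HH_ext
    intro i
    have e1 : (Sa ∘L T ∘L S - T) (eb j) = Sa (T (S (eb j))) - T (eb j) := rfl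
    rw [e1, S_eb, lp.coeFn_sub, Pi.sub_apply, Sa_apply, h, h]
    have e2 : ((i + 1 : ℕ) : ℤ) - ((j + 1 : ℕ) : ℤ) = (i : ℤ) - (j : ℤ) := by push_cast; ring
    rw [e2, sub_self]
    rfl
  have h2 := congrArg (fun B : HH →L[ℂ] HH => B x) h1
  have h3 : Sa (T (S x)) - T x = 0 := h2
  exact sub_eq_zero.mp h3

lemma toep_adj (T : HH →L[ℂ] HH) (hT : ∀ x, Sa (T (S x)) = T x) (x : HH) :
    Sa (adjoint T (S x)) = adjoint T x := by
  refine ext_inner_right ℂ (fun y => ?_)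
  rw [adjoint_inner_left]
  unfold Sa
  rw [adjoint_inner_left, adjoint_inner_left]
  have h1 := hT y
  rw [← h1]
  unfold Sa
  rw [adjoint_inner_right]

lemma AC_add {B C : HH →L[ℂ] HH} (hB : AC B) (hC : AC C) : AC (B + C) := by
  unfold AC at *
  have h := hB.add hC
  rw [add_zero] at h
  refine squeeze_zero (fun _ => norm_nonneg _) (fun n => ?_) h
  have e : (B + C) * F n - F n * (B + C) = (B * F n - F n * B) + (C * F n - F n * C) := by
    noncomm_ring
  rw [e]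
  exact norm_add_le _ _

lemma AC_mul {B C : HH →L[ℂ] HH} (hB : AC B) (hC : AC C) : AC (B * C) := by
  unfold AC at *
  have h := (hC.const_mul ‖B‖).add (hB.mul_const ‖C‖)
  rw [mul_zero, zero_mul, add_zero] at h
  refine squeeze_zero (fun _ => norm_nonneg _) (fun n => ?_) h
  have e : (B * C) * F n - F n * (B * C) = B * (C * F n - F n * C) + (B * F n - F n * B) * C := by
    noncomm_ring
  rw [e]
  refine (norm_add_le _ _).trans ?_
  exact add_le_add (norm_mul_le _ _) (norm_mul_le _ _)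

lemma AC_scalar (r : ℂ) : AC (algebraMap ℂ (HH →L[ℂ] HH) r) := by
  unfold AC
  have : ∀ n, ‖(algebraMap ℂ (HH →L[ℂ] HH) r) * F n - F n * (algebraMap ℂ (HH →L[ℂ] HH) r)‖ = 0 := by
    intro n
    rw [Algebra.commutes, sub_self, norm_zero]
  simp only [this]
  exact tendsto_const_nhds

lemma adjoin_AC (s : Set (HH →L[ℂ] HH)) (hs : ∀ T ∈ s, ∀ x, Sa (T (S x)) = T x) (B : HH →L[ℂ] HH)
    (hB : B ∈ StarAlgebra.adjoin ℂ s) : AC B ∧ AC (star B) := by
  induction hB using StarAlgebra.adjoin_induction with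
  | mem T hT =>
    refine ⟨toep_AC T (hs T hT), ?_⟩
    rw [ContinuousLinearMap.star_eq_adjoint]
    exact toep_AC _ (toep_adj T (hs T hT))
  | algebraMap r =>
    refine ⟨AC_scalar r, ?_⟩
    rw [← algebraMap_star_comm]
    exact AC_scalar _
  | add x y _ _ hx hy =>
    refine ⟨AC_add hx.1 hy.1, ?_⟩
    rw [star_add]
    exact AC_add hx.2 hy.2
  | mul x y _ _ hx hy =>
    refine ⟨AC_mul hx.1 hy.1, ?_⟩
    rw [star_mul]
    exact AC_mul hy.2 hx.2
  | star x _ hx =>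
    refine ⟨hx.2, ?_⟩
    rw [star_star]
    exact hx.1

/-! ### Lower bound -/

lemma inner_K_Pv (e d f : ℕ) :
    ⟪K (rr e), P (rr d) (v f)⟫_ℂ =
      (((1 / 4 : ℝ) ^ f / ((1 - rr d * rr e) * (1 - rr e * rr f)) : ℝ) : ℂ) := by
  have hne : (1 - (rr d : ℂ) * rr e) ≠ 0 := by
    have := (one_sub_pos d e).ne'
    exact_mod_cast this
  have e2 : ⟪K (rr e), P (rr d) (v f)⟫_ℂ = ⟪Qr (rr d) (K (rr e)), v f⟫_ℂ := by
    unfold Qr; rw [adjoint_inner_left]
  have e3 : Qr (rr d) (K (rr e)) = (1 - (rr d : ℂ) * rr e)⁻¹ • K (rr e) := by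
    have h2 := Q_K (rr_nonneg d) (rr_lt_one d) (rr_nonneg e) (rr_lt_one e)
    calc Qr (rr d) (K (rr e)) = (1 - (rr d : ℂ) * rr e)⁻¹ • ((1 - (rr d : ℂ) * rr e) • Qr (rr d) (K (rr e))) := by
          rw [smul_smul, inv_mul_cancel₀ hne, one_smul]
      _ = (1 - (rr d : ℂ) * rr e)⁻¹ • K (rr e) := by rw [h2]
  rw [e2, e3, inner_smul_left]
  unfold v
  rw [inner_smul_right, inner_K (rr_nonneg f) (rr_lt_one f) (rr_nonneg e) (rr_lt_one e)]
  rw [map_inv₀, map_sub, map_one, map_mul, Complex.conj_ofReal, Complex.conj_ofReal]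
  push_cast
  rw [mul_comm (rr f : ℂ) (rr e : ℂ)]
  have hne2 : (1 - (rr e : ℂ) * rr f) ≠ 0 := by
    have := (one_sub_pos e f).ne'
    exact_mod_cast this
  field_simp

lemma hh_inner (y : HH) :
    HasSum (fun m => -((ww m * tt (ff m) * rr (ff m) : ℝ) : ℂ) * ⟪K (rr (ff m)), y⟫_ℂ) ⟪Sa hh, y⟫_ℂ := by
  have h1 : ⟪Sa hh, y⟫_ℂ = ⟪eb 0, HOp (S y)⟫_ℂ := by
    unfold hh Sa
    rw [adjoint_inner_left, adjoint_inner_left]
  rw [h1]
  have h2 := (HOp_hasSum_apply (S y)).map (innerSL ℂ (eb 0)) (ContinuousLinearMap.continuous _)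
  refine h2.congr_fun (fun m => ?_) |> fun h => h
  show _ = ⟪eb 0, (ww m : ℂ) • U (ff m) (S y)⟫_ℂ
  rw [inner_smul_right, U_apply, inner_sub_right, inner_smul_right]
  have e1 : ⟪eb 0, S y⟫_ℂ = 0 := by rw [inner_eb_left, S_zero]
  have e2 : ⟪eb 0, Qr (rr (ff m)) (S y)⟫_ℂ = (rr (ff m) : ℂ) * ⟪K (rr (ff m)), y⟫_ℂ := by
    have e3 : ⟪eb 0, Qr (rr (ff m)) (S y)⟫_ℂ = ⟪K (rr (ff m)), S y⟫_ℂ := by
      unfold Qr; rw [adjoint_inner_right]; rfl
    have e4 : ⟪K (rr (ff m)), S y⟫_ℂ = ⟪Sa (K (rr (ff m))), y⟫_ℂ := by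
      unfold Sa; rw [adjoint_inner_left]
    rw [e3, e4, Sa_K (rr_nonneg _) (rr_lt_one _), inner_smul_left, Complex.conj_ofReal]
  rw [e1, e2]
  push_cast
  ring

lemma a_bound (n d : ℕ) (hd : ff n ≤ d) :
    ∃ a : ℝ, ⟪Sa hh, P (rr d) (v (ff n))⟫_ℂ = ((-a : ℝ) : ℂ) ∧ ww n * rr (ff n) * 4 ^ (ff n) / 4 ≤ a := by
  have h1 := hh_inner (P (rr d) (v (ff n)))
  set q : ℕ → ℝ := fun m => (ww m * tt (ff m) * rr (ff m)) *
    ((1 / 4 : ℝ) ^ (ff n) / ((1 - rr d * rr (ff m)) * (1 - rr (ff m) * rr (ff n)))) with hq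
  have h2 : HasSum (fun m => ((-(q m) : ℝ) : ℂ)) ⟪Sa hh, P (rr d) (v (ff n))⟫_ℂ := by
    refine h1.congr_fun (fun m => ?_) |> fun h => h
    rw [inner_K_Pv, hq]
    push_cast
    ring
  have h3 := (Complex.hasSum_iff _ _).mp h2
  have h4 : HasSum (fun m => -(q m)) (⟪Sa hh, P (rr d) (v (ff n))⟫_ℂ).re := by
    simpa using h3.1
  have h5 : (⟪Sa hh, P (rr d) (v (ff n))⟫_ℂ).im = 0 := by
    have h6 := h3.2
    simp only [Complex.ofReal_im] at h6
    exact h6.unique hasSum_zero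
  refine ⟨-(⟪Sa hh, P (rr d) (v (ff n))⟫_ℂ).re, ?_, ?_⟩
  · apply Complex.ext
    · simp
    · rw [h5]; simp
  · have h6 := h4.neg
    simp only [neg_neg] at h6
    have hnn : ∀ m, 0 ≤ q m := by
      intro m
      have e1 := one_sub_pos d (ff m)
      have e2 := one_sub_pos (ff m) (ff n)
      have e3 := ww_pos m
      have e4 := tt_pos (ff m)
      have e5 := rr_nonneg (ff m)
      simp only [hq]
      positivity
    have h7 : q n ≤ -(⟪Sa hh, P (rr d) (v (ff n))⟫_ℂ).re :=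
      le_hasSum h6 n (fun m _ => hnn m)
    refine le_trans ?_ h7
    simp only [hq]
    have e1 := one_sub_pos d (ff n)
    have e2 := one_sub_pos (ff n) (ff n)
    have e3 := tt_pos (ff n)
    have e4 : 1 - rr d * rr (ff n) ≤ 2 * tt (ff n) := by
      have e5 := tt_anti hd
      have e6 := tt_pos d
      have e7 : rr d * rr (ff n) = 1 - tt d - tt (ff n) + tt d * tt (ff n) := by unfold rr; ring
      nlinarith
    have e5 : 1 - rr (ff n) * rr (ff n) ≤ 2 * tt (ff n) := by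
      have e7 : rr (ff n) * rr (ff n) = 1 - tt (ff n) - tt (ff n) + tt (ff n) * tt (ff n) := by unfold rr; ring
      nlinarith
    have e6 : (1 - rr d * rr (ff n)) * (1 - rr (ff n) * rr (ff n)) ≤ 4 * tt (ff n) ^ 2 := by
      calc (1 - rr d * rr (ff n)) * (1 - rr (ff n) * rr (ff n)) ≤ (2 * tt (ff n)) * (2 * tt (ff n)) :=
            mul_le_mul e4 e5 e2.le (by positivity)
        _ = _ := by ring
    have e7 : (1 / 4 : ℝ) ^ (ff n) / (4 * tt (ff n) ^ 2) ≤
        (1 / 4 : ℝ) ^ (ff n) / ((1 - rr d * rr (ff n)) * (1 - rr (ff n) * rr (ff n))) :=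
      div_le_div_of_nonneg_left (by positivity) (by positivity) e6
    have e8 : ww n * rr (ff n) * 4 ^ (ff n) / 4 =
        (ww n * tt (ff n) * rr (ff n)) * ((1 / 4 : ℝ) ^ (ff n) / (4 * tt (ff n) ^ 2)) := by
      have e9 : (1 / 4 : ℝ) ^ (ff n) = 4 ^ (ff n) * tt (ff n) := by
        unfold tt
        rw [← mul_pow]; norm_num
      rw [e9]
      field_simp
    rw [e8]
    apply mul_le_mul_of_nonneg_left e7
    have := ww_pos n
    have := rr_nonneg (ff n)
    positivity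

lemma gg_v (n : ℕ) :
    ∃ b : ℝ, ⟪v (cc n), gg⟫_ℂ = (b : ℂ) ∧ al n * (1 / 4) ^ (cc n) / 2 ≤ b := by
  have h1 := gg_inner (v (cc n))
  set q : ℕ → ℝ := fun m => al m * (1 / 4) ^ (cc m) * gm (cc n) (cc m) with hq
  have h2 : HasSum (fun m => ((q m : ℝ) : ℂ)) (⟪v (cc n), gg⟫_ℂ - ⟪v (cc n), eb 0⟫_ℂ) := by
    refine h1.congr_fun (fun m => ?_) |> fun h => h
    rw [V_eb, inner_smul_right, inner_smul_right, inner_v, hq]
    push_cast
    ring
  have h0 : ⟪v (cc n), eb 0⟫_ℂ = (((1 / 4 : ℝ) ^ (cc n) : ℝ) : ℂ) := by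
    rw [inner_eb_right]
    unfold v
    rw [lp.coeFn_smul, Pi.smul_apply, K_apply (rr_nonneg _) (rr_lt_one _), pow_zero, smul_eq_mul, mul_one,
      Complex.conj_ofReal]
  have h3 := (Complex.hasSum_iff _ _).mp h2
  have h4 : HasSum q (⟪v (cc n), gg⟫_ℂ - ⟪v (cc n), eb 0⟫_ℂ).re := by
    simpa using h3.1
  have h5 : (⟪v (cc n), gg⟫_ℂ - ⟪v (cc n), eb 0⟫_ℂ).im = 0 := by
    have h6 := h3.2
    simp only [Complex.ofReal_im] at h6
    exact h6.unique hasSum_zero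
  rw [h0] at h4 h5
  rw [Complex.sub_re, Complex.ofReal_re] at h4
  rw [Complex.sub_im, Complex.ofReal_im, sub_zero] at h5
  refine ⟨(⟪v (cc n), gg⟫_ℂ).re, ?_, ?_⟩
  · apply Complex.ext
    · simp
    · rw [h5]; simp
  · have hnn : ∀ m, 0 ≤ q m := by
      intro m
      simp only [hq]
      exact mul_nonneg (mul_nonneg (al_pos m).le (by positivity)) (gm_nonneg _ _)
    have h7 := le_hasSum h4 n (fun m _ => hnn m)
    have h8 : al n * (1 / 4) ^ (cc n) / 2 ≤ q n := by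
      simp only [hq]
      have e1 : 1 / 2 ≤ gm (cc n) (cc n) := by
        rw [gm_self]
        apply one_div_le_one_div_of_le
        · linarith [rr_nonneg (cc n)]
        · linarith [rr_lt_one (cc n)]
      have e2 : 0 ≤ al n * (1 / 4 : ℝ) ^ (cc n) := mul_nonneg (al_pos n).le (by positivity)
      nlinarith
    have h9 : (0 : ℝ) < (1 / 4) ^ (cc n) := by positivity
    linarith

lemma b_bound (n d : ℕ) (hd : d ≤ cc n) :
    ∃ b : ℝ, ⟪v (cc n), V d gg⟫_ℂ = (b : ℂ) ∧ al n * (1 / 4) ^ (cc n) / 4 ≤ b := by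
  obtain ⟨b, hb, hb2⟩ := gg_v n
  have hne : (1 - (rr d : ℂ) * rr (cc n)) ≠ 0 := by
    have := (one_sub_pos d (cc n)).ne'
    exact_mod_cast this
  have e3 : Qr (rr d) (v (cc n)) = (1 - (rr d : ℂ) * rr (cc n))⁻¹ • v (cc n) := by
    have h2 := Q_K (rr_nonneg d) (rr_lt_one d) (rr_nonneg (cc n)) (rr_lt_one (cc n))
    have h3 : Qr (rr d) (K (rr (cc n))) = (1 - (rr d : ℂ) * rr (cc n))⁻¹ • K (rr (cc n)) := by
      calc Qr (rr d) (K (rr (cc n))) =
          (1 - (rr d : ℂ) * rr (cc n))⁻¹ • ((1 - (rr d : ℂ) * rr (cc n)) • Qr (rr d) (K (rr (cc n)))) := by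
            rw [smul_smul, inv_mul_cancel₀ hne, one_smul]
        _ = _ := by rw [h2]
    unfold v
    rw [map_smul, h3]
    module
  have e4 : ⟪v (cc n), V d gg⟫_ℂ = ((tt d / (1 - rr d * rr (cc n)) * b : ℝ) : ℂ) := by
    rw [V_apply, inner_smul_right]
    have e5 : ⟪v (cc n), P (rr d) gg⟫_ℂ = ⟪Qr (rr d) (v (cc n)), gg⟫_ℂ := by
      unfold Qr; rw [adjoint_inner_left]
    rw [e5, e3, inner_smul_left, hb, map_inv₀, map_sub, map_one, map_mul, Complex.conj_ofReal,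
      Complex.conj_ofReal]
    push_cast
    field_simp
  refine ⟨_, e4, ?_⟩
  have h1 := one_sub_pos d (cc n)
  have h2 : 1 - rr d * rr (cc n) ≤ 2 * tt d := by
    have e5 := tt_anti hd
    have e6 := tt_pos (cc n)
    have e8 := tt_pos d
    have e7 : rr d * rr (cc n) = 1 - tt d - tt (cc n) + tt d * tt (cc n) := by unfold rr; ring
    nlinarith
  have h3 : 1 / 2 ≤ tt d / (1 - rr d * rr (cc n)) := by
    rw [div_le_div_iff₀ (by norm_num) h1]
    linarith
  have h4 : 0 ≤ al n * (1 / 4 : ℝ) ^ (cc n) / 2 := by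
    have := al_pos n
    positivity
  have h5 : 0 ≤ b := h4.trans hb2
  nlinarith

lemma lower (n : ℕ) (hn : 1 ≤ n) : 1 / 32 ≤ ‖AA * F n - F n * AA‖ := by
  have hn' : (0 : ℝ) < n := by exact_mod_cast hn
  have hB : ∀ x, AA (S x) = S (AA x) + (innerSL ℂ (Sa hh)) x • gg := AA_comm_S
  have h1 : ∀ k ∈ Finset.range n, ∃ s : ℝ, ⟪v (cc n), AA (V (cc n - k) (v (ff n))) -
      V (cc n - k) (AA (v (ff n)))⟫_ℂ = ((-s : ℝ) : ℂ) ∧ 1 / 32 ≤ s := by
    intro k hk
    rw [Finset.mem_range] at hk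
    have hcf := cc_eq n
    have hd1 : ff n ≤ cc n - k := by omega
    have hd2 : cc n - k ≤ cc n := by omega
    obtain ⟨a, ha, ha2⟩ := a_bound n (cc n - k) hd1
    obtain ⟨b, hb, hb2⟩ := b_bound n (cc n - k) hd2
    refine ⟨rr (cc n - k) * a * b, ?_, ?_⟩
    · rw [comm_V AA _ _ hB, inner_smul_right, hb]
      have e1 : (innerSL ℂ (Sa hh)) (P (rr (cc n - k)) (v (ff n))) = ((-a : ℝ) : ℂ) := ha
      rw [e1]
      push_cast
      ring
    · have e1 := ff_pos n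
      have e2 := rr_ge_of_one_le (ff_pos n)
      have e3 := rr_ge_of_one_le (le_trans (ff_pos n) hd1)
      have e4 : 0 ≤ ww n * rr (ff n) * 4 ^ (ff n) / 4 := by
        have := ww_pos n
        have := rr_nonneg (ff n)
        positivity
      have e5 : 0 ≤ al n * (1 / 4 : ℝ) ^ (cc n) / 4 := by
        have := al_pos n
        positivity
      have e6 : (ww n * rr (ff n) * 4 ^ (ff n) / 4) * (al n * (1 / 4 : ℝ) ^ (cc n) / 4) ≤ a * b :=
        mul_le_mul ha2 hb2 e5 (e4.trans ha2)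
      have e7 : (ww n * rr (ff n) * 4 ^ (ff n) / 4) * (al n * (1 / 4 : ℝ) ^ (cc n) / 4) = rr (ff n) / 16 := by
        have e8 := al_mul_ww n
        have e9 : (4 : ℝ) ^ (ff n) * (1 / 4 : ℝ) ^ (cc n) * 4 ^ n = 1 := by
          rw [cc_eq, pow_add, one_div_pow, one_div_pow]
          field_simp
        calc (ww n * rr (ff n) * 4 ^ (ff n) / 4) * (al n * (1 / 4 : ℝ) ^ (cc n) / 4)
            = rr (ff n) / 16 * (4 ^ (ff n) * (1 / 4 : ℝ) ^ (cc n) * (al n * ww n)) := by ring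
          _ = rr (ff n) / 16 := by rw [e8, e9, mul_one]
      rw [e7] at e6
      nlinarith
  choose! s hs hs2 using h1
  have h2 : ⟪v (cc n), (AA * F n - F n * AA) (v (ff n))⟫_ℂ =
      ((-(1 / (n : ℝ) * ∑ k ∈ Finset.range n, s k) : ℝ) : ℂ) := by
    rw [F_comm_apply, inner_smul_right, inner_sum, Finset.sum_congr rfl (fun k hk => hs k hk)]
    push_cast
    rw [Finset.sum_neg_distrib]
    ring
  have h3 : 1 / 32 ≤ 1 / (n : ℝ) * ∑ k ∈ Finset.range n, s k := by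
    have h4 : ∑ k ∈ Finset.range n, (1 / 32 : ℝ) ≤ ∑ k ∈ Finset.range n, s k :=
      Finset.sum_le_sum (fun k hk => hs2 k hk)
    rw [Finset.sum_const, Finset.card_range, nsmul_eq_mul] at h4
    rw [one_div_mul_eq_div, le_div_iff₀ hn']
    linarith
  have h5 : ‖⟪v (cc n), (AA * F n - F n * AA) (v (ff n))⟫_ℂ‖ ≤ ‖AA * F n - F n * AA‖ := by
    refine (norm_inner_le_norm _ _).trans ?_
    have e1 := v_norm (cc n)
    have e2 := v_norm (ff n)
    have e3 := (AA * F n - F n * AA).le_opNorm (v (ff n))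
    have e4 := norm_nonneg (v (cc n))
    have e5 := norm_nonneg (v (ff n))
    have e6 := norm_nonneg (AA * F n - F n * AA)
    have e7 := norm_nonneg ((AA * F n - F n * AA) (v (ff n)))
    nlinarith
  rw [h2, Complex.norm_real, Real.norm_eq_abs, abs_neg, abs_of_nonneg (by linarith)] at h5
  linarith

/-- the main conclusion: `AA` is not in the closed star algebra generated by Toeplitz operators -/
theorem AA_not_mem (s : Set (HH →L[ℂ] HH)) (hs : ∀ T ∈ s, ∀ x, Sa (T (S x)) = T x) :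
    AA ∉ (StarAlgebra.adjoin ℂ s).topologicalClosure := by
  intro hmem
  have h1 : AA ∈ closure ((StarAlgebra.adjoin ℂ s : StarSubalgebra ℂ (HH →L[ℂ] HH)) : Set (HH →L[ℂ] HH)) := by
    rw [← StarSubalgebra.topologicalClosure_coe]; exact hmem
  rw [Metric.mem_closure_iff] at h1
  obtain ⟨B, hB, hdist⟩ := h1 (1 / 200) (by norm_num)
  have h2 := (adjoin_AC s hs B hB).1
  unfold AC at h2
  have h3 := h2.eventually (gt_mem_nhds (show (0 : ℝ) < 1 / 200 by norm_num))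
  obtain ⟨n, hn1, hn2⟩ := (h3.and (eventually_ge_atTop 1)).exists
  have h4 := lower n hn2
  have h5 : AA * F n - F n * AA = (B * F n - F n * B) + ((AA - B) * F n - F n * (AA - B)) := by
    noncomm_ring
  rw [dist_eq_norm] at hdist
  have hF := F_norm n
  have h6 : ‖(AA - B) * F n - F n * (AA - B)‖ ≤ 2 * ‖AA - B‖ := by
    refine (norm_sub_le _ _).trans ?_
    have e1 := norm_mul_le (AA - B) (F n)
    have e2 := norm_mul_le (F n) (AA - B)
    have e3 := norm_nonneg (AA - B)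
    have e4 := norm_nonneg (F n)
    nlinarith
  have h7 : ‖AA * F n - F n * AA‖ ≤ ‖B * F n - F n * B‖ + 2 * ‖AA - B‖ := by
    rw [h5]
    exact (norm_add_le _ _).trans (add_le_add le_rfl h6)
  linarith

end Pool.Agent.Helper280
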