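import Pool.Agent.Helper280.Shift

/-!
Parameters, normalized kernels and the Bessel inequality.
-/

set_option autoImplicit false

namespace Pool.Agent.Helper280

open scoped InnerProductSpace ENNReal
open ContinuousLinearMap

/-- `16^{-d}` -/
noncomputable def tt (d : ℕ) : ℝ := (1 / 16 : ℝ) ^ d
/-- `1 - 16^{-d}` -/
noncomputable def rr (d : ℕ) : ℝ := 1 - tt d

lemma tt_pos (d : ℕ) : 0 < tt d := by unfold tt; positivity
lemma tt_le_one (d : ℕ) : tt d ≤ 1 := by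
  unfold tt; exact pow_le_one₀ (by norm_num) (by norm_num)
lemma rr_nonneg (d : ℕ) : 0 ≤ rr d := by unfold rr; linarith [tt_le_one d]
lemma rr_lt_one (d : ℕ) : rr d < 1 := by unfold rr; linarith [tt_pos d]
lemma tt_eq (d : ℕ) : tt d = 1 - rr d := by unfold rr; ring
lemma tt_anti {d e : ℕ} (h : d ≤ e) : tt e ≤ tt d := by
  unfold tt; exact pow_le_pow_of_le_one (by norm_num) (by norm_num) h
lemma tt_le_of_one_le {d : ℕ} (h : 1 ≤ d) : tt d ≤ 1 / 16 := by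
  have := tt_anti h
  simpa [tt] using this
lemma rr_ge_of_one_le {d : ℕ} (h : 1 ≤ d) : 15 / 16 ≤ rr d := by
  unfold rr; linarith [tt_le_of_one_le h]
lemma tt_eq_sq (d : ℕ) : tt d = (1 / 4 : ℝ) ^ d * (1 / 4 : ℝ) ^ d := by
  unfold tt; rw [← mul_pow]; norm_num

lemma one_sub_pos (d e : ℕ) : 0 < 1 - rr d * rr e := by
  have h1 := rr_nonneg d
  have h2 := rr_lt_one d
  have h3 := rr_nonneg e
  have h4 := rr_lt_one e
  nlinarith

lemma one_sub_ge_left (d e : ℕ) : tt d ≤ 1 - rr d * rr e := by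
  have h1 := rr_nonneg d
  have h4 := rr_lt_one e
  rw [tt_eq]
  nlinarith

lemma one_sub_ge_right (d e : ℕ) : tt e ≤ 1 - rr d * rr e := by
  have h1 := rr_nonneg e
  have h4 := rr_lt_one d
  rw [tt_eq]
  nlinarith

/-- normalized kernels -/
noncomputable def v (d : ℕ) : HH := (((1 / 4 : ℝ) ^ d : ℝ) : ℂ) • K (rr d)

/-- Gram matrix -/
noncomputable def gm (d e : ℕ) : ℝ := (1 / 4 : ℝ) ^ d * (1 / 4 : ℝ) ^ e / (1 - rr d * rr e)

lemma inner_v (d e : ℕ) : ⟪v d, v e⟫_ℂ = (gm d e : ℂ) := by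
  unfold v gm
  rw [inner_smul_left, inner_smul_right, inner_K (rr_nonneg e) (rr_lt_one e) (rr_nonneg d) (rr_lt_one d)]
  rw [Complex.conj_ofReal]
  push_cast
  ring

lemma gm_nonneg (d e : ℕ) : 0 ≤ gm d e := by
  unfold gm
  have := one_sub_pos d e
  positivity

/-- `4^{-|d-e|}` -/
noncomputable def dd (d e : ℕ) : ℝ := (1 / 4 : ℝ) ^ ((d - e) + (e - d))

lemma dd_nonneg (d e : ℕ) : 0 ≤ dd d e := by unfold dd; positivity

lemma dd_symm (d e : ℕ) : dd d e = dd e d := by unfold dd; rw [add_comm]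

lemma gm_le (d e : ℕ) : gm d e ≤ dd d e := by
  unfold gm
  rw [div_le_iff₀ (one_sub_pos d e)]
  rcases le_total d e with h | h
  · obtain ⟨k, rfl⟩ := Nat.exists_eq_add_of_le h
    have h1 := one_sub_ge_left d (d + k)
    have h2 : dd d (d + k) = (1 / 4 : ℝ) ^ k := by
      unfold dd; congr 1; omega
    rw [h2]
    calc (1 / 4 : ℝ) ^ d * (1 / 4) ^ (d + k) = (1 / 4) ^ k * tt d := by rw [tt_eq_sq, pow_add]; ring
      _ ≤ (1 / 4) ^ k * (1 - rr d * rr (d + k)) := mul_le_mul_of_nonneg_left h1 (by positivity)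
  · obtain ⟨k, rfl⟩ := Nat.exists_eq_add_of_le h
    have h1 := one_sub_ge_right (e + k) e
    have h2 : dd (e + k) e = (1 / 4 : ℝ) ^ k := by
      unfold dd; congr 1; omega
    rw [h2]
    calc (1 / 4 : ℝ) ^ (e + k) * (1 / 4) ^ e = (1 / 4) ^ k * tt e := by rw [tt_eq_sq, pow_add]; ring
      _ ≤ (1 / 4) ^ k * (1 - rr (e + k) * rr e) := mul_le_mul_of_nonneg_left h1 (by positivity)

lemma geo_le (N : ℕ) : ∑ k ∈ Finset.range N, (1 / 4 : ℝ) ^ k ≤ 4 / 3 := by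
  have h : ∀ N : ℕ, ∑ k ∈ Finset.range N, (1 / 4 : ℝ) ^ k = 4 / 3 - 4 / 3 * (1 / 4) ^ N := by
    intro N
    induction N with
    | zero => simp
    | succ N ih => rw [Finset.sum_range_succ, ih, pow_succ]; ring
  rw [h N]
  have : (0 : ℝ) < (1 / 4) ^ N := by positivity
  linarith

lemma dd_sum_le (d N : ℕ) : ∑ e ∈ Finset.range N, dd d e ≤ 2 := by
  have h1 : ∀ e, dd d e ≤ (if e ≤ d then (1 / 4 : ℝ) ^ (d - e) else 0) +
      (if d < e then (1 / 4 : ℝ) ^ (e - d) else 0) := by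
    intro e
    unfold dd
    rcases le_or_gt e d with h | h
    · rw [if_pos h, if_neg (by omega), Nat.sub_eq_zero_of_le h]; simp
    · rw [if_neg (by omega), if_pos h, Nat.sub_eq_zero_of_le h.le]; simp
  refine (Finset.sum_le_sum (fun e _ => h1 e)).trans ?_
  rw [Finset.sum_add_distrib]
  have h2 : ∑ e ∈ Finset.range N, (if e ≤ d then (1 / 4 : ℝ) ^ (d - e) else 0) ≤ 4 / 3 := by
    rw [← Finset.sum_filter]
    have h3 : ∑ e ∈ Finset.filter (fun e => e ≤ d) (Finset.range N), (1 / 4 : ℝ) ^ (d - e) =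
        ∑ k ∈ (Finset.filter (fun e => e ≤ d) (Finset.range N)).image (fun e => d - e), (1 / 4 : ℝ) ^ k := by
      rw [Finset.sum_image]
      intro a ha b hb hab
      simp only [Finset.coe_filter, Set.mem_ofPred_eq] at ha hb
      dsimp only at hab
      omega
    rw [h3]
    refine le_trans (Finset.sum_le_sum_of_subset_of_nonneg (t := Finset.range (d + 1)) ?_ ?_) (geo_le _)
    · intro k hk
      simp only [Finset.mem_image] at hk
      obtain ⟨a, _, rfl⟩ := hk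
      exact Finset.mem_range.mpr (by omega)
    · intros; positivity
  have h4 : ∑ e ∈ Finset.range N, (if d < e then (1 / 4 : ℝ) ^ (e - d) else 0) ≤ 1 / 3 := by
    rw [← Finset.sum_filter]
    have h3 : ∑ e ∈ Finset.filter (fun e => d < e) (Finset.range N), (1 / 4 : ℝ) ^ (e - d) =
        (1 / 4) * ∑ k ∈ (Finset.filter (fun e => d < e) (Finset.range N)).image (fun e => e - d - 1),
          (1 / 4 : ℝ) ^ k := by
      rw [Finset.sum_image, Finset.mul_sum]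
      · refine Finset.sum_congr rfl (fun e he => ?_)
        rw [Finset.mem_filter] at he
        rw [← pow_succ']
        congr 1
        omega
      · intro a ha b hb hab
        simp only [Finset.coe_filter, Set.mem_ofPred_eq] at ha hb
        dsimp only at hab
        omega
    rw [h3]
    have h5 : ∑ k ∈ (Finset.filter (fun e => d < e) (Finset.range N)).image (fun e => e - d - 1),
          (1 / 4 : ℝ) ^ k ≤ 4 / 3 := by
      refine le_trans (Finset.sum_le_sum_of_subset_of_nonneg (t := Finset.range N) ?_ ?_) (geo_le _)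
      · intro k hk
        simp only [Finset.mem_image, Finset.mem_filter, Finset.mem_range] at hk
        obtain ⟨a, ha, rfl⟩ := hk
        exact Finset.mem_range.mpr (by omega)
      · intros; positivity
    linarith
  linarith

lemma dd_sum_inj (d : ℕ) (F : Finset ℕ) (f : ℕ → ℕ) (hf : Set.InjOn f F) :
    ∑ i ∈ F, dd d (f i) ≤ 2 := by
  have h1 : ∑ i ∈ F, dd d (f i) = ∑ e ∈ F.image f, dd d e := by
    rw [Finset.sum_image hf]
  rw [h1]
  obtain ⟨N, hN⟩ := (F.image f).exists_nat_subset_range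
  exact (Finset.sum_le_sum_of_subset_of_nonneg hN (fun _ _ _ => dd_nonneg _ _)).trans (dd_sum_le d N)

/-- Bessel inequality (synthesis form) -/
lemma bessel (F : Finset ℕ) (f : ℕ → ℕ) (hf : Set.InjOn f F) (l : ℕ → ℂ) :
    ‖∑ i ∈ F, l i • v (f i)‖ ^ 2 ≤ 2 * ∑ i ∈ F, ‖l i‖ ^ 2 := by
  have h1 : ‖∑ i ∈ F, l i • v (f i)‖ ^ 2 =
      ∑ i ∈ F, ∑ j ∈ F, (starRingEnd ℂ (l i) * l j * (gm (f i) (f j) : ℂ)).re := by
    have h2 : ((‖∑ i ∈ F, l i • v (f i)‖ ^ 2 : ℝ) : ℂ) = ⟪∑ i ∈ F, l i • v (f i), ∑ i ∈ F, l i • v (f i)⟫_ℂ := by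
      rw [inner_self_eq_norm_sq_to_K]; norm_cast
    have h3 : ⟪∑ i ∈ F, l i • v (f i), ∑ i ∈ F, l i • v (f i)⟫_ℂ =
        ∑ i ∈ F, ∑ j ∈ F, (starRingEnd ℂ (l i) * l j * (gm (f i) (f j) : ℂ)) := by
      rw [sum_inner]
      refine Finset.sum_congr rfl (fun i _ => ?_)
      rw [inner_sum]
      refine Finset.sum_congr rfl (fun j _ => ?_)
      rw [inner_smul_left, inner_smul_right, inner_v]
      ring
    rw [h3] at h2
    have h4 := congrArg Complex.re h2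
    rw [Complex.ofReal_re] at h4
    rw [h4, Complex.re_sum]
    refine Finset.sum_congr rfl (fun i _ => ?_)
    rw [Complex.re_sum]
  rw [h1]
  have h5 : ∀ i ∈ F, ∀ j ∈ F, (starRingEnd ℂ (l i) * l j * (gm (f i) (f j) : ℂ)).re ≤
      (‖l i‖ ^ 2 * dd (f i) (f j) + ‖l j‖ ^ 2 * dd (f i) (f j)) / 2 := by
    intro i _ j _
    have h6 : (starRingEnd ℂ (l i) * l j * (gm (f i) (f j) : ℂ)).re ≤
        ‖l i‖ * ‖l j‖ * gm (f i) (f j) := by
      refine (Complex.re_le_norm _).trans ?_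
      rw [norm_mul, norm_mul, RCLike.norm_conj, Complex.norm_real, Real.norm_eq_abs,
        abs_of_nonneg (gm_nonneg _ _)]
    have h7 : ‖l i‖ * ‖l j‖ * gm (f i) (f j) ≤ ‖l i‖ * ‖l j‖ * dd (f i) (f j) :=
      mul_le_mul_of_nonneg_left (gm_le _ _) (by positivity)
    have h8 : ‖l i‖ * ‖l j‖ ≤ (‖l i‖ ^ 2 + ‖l j‖ ^ 2) / 2 := by nlinarith [sq_nonneg (‖l i‖ - ‖l j‖)]
    have h9 := mul_le_mul_of_nonneg_right h8 (dd_nonneg (f i) (f j))
    linarith
  refine (Finset.sum_le_sum (fun i hi => Finset.sum_le_sum (fun j hj => h5 i hi j hj))).trans ?_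
  have h10 : ∑ i ∈ F, ∑ j ∈ F, (‖l i‖ ^ 2 * dd (f i) (f j) + ‖l j‖ ^ 2 * dd (f i) (f j)) / 2 =
      ∑ i ∈ F, ‖l i‖ ^ 2 * ∑ j ∈ F, dd (f i) (f j) := by
    have e1 : ∑ i ∈ F, ∑ j ∈ F, (‖l i‖ ^ 2 * dd (f i) (f j) + ‖l j‖ ^ 2 * dd (f i) (f j)) / 2 =
        (∑ i ∈ F, ∑ j ∈ F, ‖l i‖ ^ 2 * dd (f i) (f j)) / 2 +
        (∑ i ∈ F, ∑ j ∈ F, ‖l j‖ ^ 2 * dd (f i) (f j)) / 2 := by
      rw [Finset.sum_div, Finset.sum_div, ← Finset.sum_add_distrib]
      refine Finset.sum_congr rfl (fun i _ => ?_)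
      rw [Finset.sum_div, Finset.sum_div, ← Finset.sum_add_distrib]
      refine Finset.sum_congr rfl (fun j _ => ?_)
      ring
    have e2 : ∑ i ∈ F, ∑ j ∈ F, ‖l j‖ ^ 2 * dd (f i) (f j) =
        ∑ i ∈ F, ∑ j ∈ F, ‖l i‖ ^ 2 * dd (f i) (f j) := by
      rw [Finset.sum_comm]
      refine Finset.sum_congr rfl (fun i _ => Finset.sum_congr rfl (fun j _ => ?_))
      rw [dd_symm]
    rw [e1, e2]
    have e3 : ∑ i ∈ F, ∑ j ∈ F, ‖l i‖ ^ 2 * dd (f i) (f j) =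
        ∑ i ∈ F, ‖l i‖ ^ 2 * ∑ j ∈ F, dd (f i) (f j) := by
      refine Finset.sum_congr rfl (fun i _ => ?_)
      rw [Finset.mul_sum]
    rw [e3]
    ring
  rw [h10, Finset.mul_sum]
  refine Finset.sum_le_sum (fun i _ => ?_)
  have := mul_le_mul_of_nonneg_left (dd_sum_inj (f i) F f hf) (sq_nonneg ‖l i‖)
  linarith

/-- Bessel inequality (analysis form) -/
lemma bessel' (F : Finset ℕ) (f : ℕ → ℕ) (hf : Set.InjOn f F) (x : HH) :
    ∑ i ∈ F, ‖⟪v (f i), x⟫_ℂ‖ ^ 2 ≤ 2 * ‖x‖ ^ 2 := by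
  set T := ∑ i ∈ F, ‖⟪v (f i), x⟫_ℂ‖ ^ 2 with hT
  have hT0 : 0 ≤ T := Finset.sum_nonneg (fun _ _ => by positivity)
  set y := ∑ i ∈ F, ⟪v (f i), x⟫_ℂ • v (f i) with hy
  have h1 : ‖y‖ ^ 2 ≤ 2 * T := bessel F f hf (fun i => ⟪v (f i), x⟫_ℂ)
  have h2 : ⟪y, x⟫_ℂ = (T : ℂ) := by
    rw [hy, sum_inner, hT]
    push_cast
    refine Finset.sum_congr rfl (fun i _ => ?_)
    rw [inner_smul_left, ← Complex.normSq_eq_conj_mul_self, Complex.normSq_eq_norm_sq]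
    norm_cast
  have h3 : T ≤ ‖y‖ * ‖x‖ := by
    have h4 := norm_inner_le_norm (𝕜 := ℂ) y x
    rw [h2, Complex.norm_real, Real.norm_eq_abs, abs_of_nonneg hT0] at h4
    exact h4
  have h5 : T ^ 2 ≤ (2 * T) * ‖x‖ ^ 2 := by
    calc T ^ 2 ≤ (‖y‖ * ‖x‖) ^ 2 := pow_le_pow_left₀ hT0 h3 2
      _ = ‖y‖ ^ 2 * ‖x‖ ^ 2 := by ring
      _ ≤ (2 * T) * ‖x‖ ^ 2 := mul_le_mul_of_nonneg_right h1 (by positivity)
  rcases hT0.eq_or_lt with h | h
  · rw [← h]; positivity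
  · have h6 : T * T ≤ T * (2 * ‖x‖ ^ 2) := by nlinarith
    exact le_of_mul_le_mul_left h6 h

lemma v_norm (d : ℕ) : ‖v d‖ ≤ 1 := by
  have h : ((‖v d‖ ^ 2 : ℝ) : ℂ) = (gm d d : ℂ) := by
    rw [← inner_v, inner_self_eq_norm_sq_to_K]; norm_cast
  have h2 : ‖v d‖ ^ 2 = gm d d := by exact_mod_cast h
  have h3 : gm d d ≤ 1 := by
    have := gm_le d d
    unfold dd at this
    simpa using this
  have h4 : ‖v d‖ ^ 2 ≤ 1 ^ 2 := by rw [h2]; simpa using h3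
  exact (pow_le_pow_iff_left₀ (norm_nonneg _) zero_le_one two_ne_zero).mp h4

end Pool.Agent.Helper280
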