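import Pool.Agent.Helper280.Ker

/-!
The operators `V d = t_d P_d`, `U e = 1 - t_e Q_e`, and their commutation relation.
-/

set_option autoImplicit false

namespace Pool.Agent.Helper280

open scoped InnerProductSpace ENNReal
open ContinuousLinearMap

/-- rank one operator `z ↦ ⟪y,z⟫ x` -/
noncomputable def rk (x y : HH) : HH →L[ℂ] HH := (innerSL ℂ y).smulRight x

lemma rk_apply (x y z : HH) : rk x y z = ⟪y, z⟫_ℂ • x := rfl

lemma rk_norm (x y : HH) : ‖rk x y‖ ≤ ‖x‖ * ‖y‖ := by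
  refine opNorm_le_bound _ (by positivity) (fun z => ?_)
  rw [rk_apply, norm_smul]
  have := norm_inner_le_norm (𝕜 := ℂ) y z
  calc ‖⟪y, z⟫_ℂ‖ * ‖x‖ ≤ (‖y‖ * ‖z‖) * ‖x‖ := mul_le_mul_of_nonneg_right this (norm_nonneg _)
    _ = ‖x‖ * ‖y‖ * ‖z‖ := by ring

/-- `t_d P_d` -/
noncomputable def V (d : ℕ) : HH →L[ℂ] HH := (tt d : ℂ) • P (rr d)
/-- `1 - t_e Q_e` -/
noncomputable def U (e : ℕ) : HH →L[ℂ] HH := 1 - (tt e : ℂ) • Qr (rr e)

lemma V_apply (d : ℕ) (x : HH) : V d x = (tt d : ℂ) • P (rr d) x := rfl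
lemma U_apply (e : ℕ) (x : HH) : U e x = x - (tt e : ℂ) • Qr (rr e) x := rfl

lemma tP_norm (d : ℕ) (x : HH) : tt d * ‖P (rr d) x‖ ≤ ‖x‖ := by
  have := P_norm (rr_nonneg d) (rr_lt_one d) x
  rwa [← tt_eq] at this

lemma tQ_norm (d : ℕ) (x : HH) : tt d * ‖Qr (rr d) x‖ ≤ ‖x‖ := by
  have := Q_norm (rr_nonneg d) (rr_lt_one d) x
  rwa [← tt_eq] at this

lemma norm_ofReal_smul (a : ℝ) (ha : 0 ≤ a) (x : HH) : ‖(a : ℂ) • x‖ = a * ‖x‖ := by
  rw [norm_smul, Complex.norm_real, Real.norm_eq_abs, abs_of_nonneg ha]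

lemma V_norm (d : ℕ) : ‖V d‖ ≤ 1 := by
  refine opNorm_le_bound _ zero_le_one (fun x => ?_)
  rw [V_apply, norm_ofReal_smul _ (tt_pos d).le, one_mul]
  exact tP_norm d x

lemma U_norm (e : ℕ) : ‖U e‖ ≤ 2 := by
  refine opNorm_le_bound _ zero_le_two (fun x => ?_)
  rw [U_apply]
  have h1 := norm_sub_le x ((tt e : ℂ) • Qr (rr e) x)
  rw [norm_ofReal_smul _ (tt_pos e).le] at h1
  have h2 := tQ_norm e x
  linarith

lemma U_apply' (e : ℕ) (y : HH) : U e y = (rr e : ℂ) • Qr (rr e) (y - Sa y) := by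
  have h := Q_eq' (rr_nonneg e) (rr_lt_one e) y
  rw [U_apply, map_sub, smul_sub]
  have h2 : (rr e : ℂ) • Qr (rr e) (Sa y) = Qr (rr e) y - y := by
    rw [eq_sub_iff_add_eq, add_comm]; exact h.symm
  rw [h2]
  have h3 : (tt e : ℂ) = 1 - (rr e : ℂ) := by rw [tt_eq]; push_cast; ring
  rw [h3, sub_smul, one_smul]
  abel

lemma Sub_P (d : ℕ) (x : HH) :
    (rr d : ℂ) • (P (rr d) x - S (P (rr d) x)) = x - (tt d : ℂ) • P (rr d) x := by
  have h := P_eq (rr_nonneg d) (rr_lt_one d) x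
  have h2 : (rr d : ℂ) • S (P (rr d) x) = P (rr d) x - x := by
    rw [eq_sub_iff_add_eq, add_comm]; exact h.symm
  rw [smul_sub, h2]
  have h3 : (tt d : ℂ) = 1 - (rr d : ℂ) := by rw [tt_eq]; push_cast; ring
  rw [h3, sub_smul, one_smul]
  abel

lemma Sub_P_norm (d : ℕ) (hd : 1 ≤ d) (x : HH) : ‖P (rr d) x - S (P (rr d) x)‖ ≤ 3 * ‖x‖ := by
  have h := congrArg norm (Sub_P d x)
  rw [norm_ofReal_smul _ (rr_nonneg d)] at h
  have h1 := norm_sub_le x ((tt d : ℂ) • P (rr d) x)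
  rw [norm_ofReal_smul _ (tt_pos d).le] at h1
  have h2 := tP_norm d x
  have h3 := rr_ge_of_one_le hd
  have h4 := norm_nonneg (P (rr d) x - S (P (rr d) x))
  nlinarith [norm_nonneg x]

lemma UV_norm (e d : ℕ) (hd : 1 ≤ d) : ‖U e * V d‖ ≤ 3 * tt d / tt e := by
  have ht := tt_pos e
  have ht' := tt_pos d
  refine opNorm_le_bound _ (by positivity) (fun x => ?_)
  have e1 : (U e * V d) x = U e (V d x) := rfl
  rw [e1, U_apply', V_apply]
  set y := P (rr d) x with hy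
  have h1 : (tt d : ℂ) • y - Sa ((tt d : ℂ) • y) = (tt d : ℂ) • (-(Sa (y - S y))) := by
    rw [map_smul, map_sub, Sa_S, ← smul_sub]
    congr 1
    abel
  rw [h1, norm_ofReal_smul _ (rr_nonneg e)]
  have h2 := tQ_norm e ((tt d : ℂ) • (-(Sa (y - S y))))
  rw [norm_ofReal_smul _ ht'.le, norm_neg] at h2
  have h3 := Sa_norm_le (y - S y)
  have h4 := Sub_P_norm d hd x
  rw [← hy] at h4
  have h5 := (rr_lt_one e).le
  have h6 := norm_nonneg (Qr (rr e) ((tt d : ℂ) • (-(Sa (y - S y)))))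
  have h7 : tt e * ‖Qr (rr e) ((tt d : ℂ) • (-(Sa (y - S y))))‖ ≤ tt d * (3 * ‖x‖) :=
    h2.trans (mul_le_mul_of_nonneg_left (h3.trans h4) ht'.le)
  have h8 : rr e * ‖Qr (rr e) ((tt d : ℂ) • (-(Sa (y - S y))))‖ ≤
      ‖Qr (rr e) ((tt d : ℂ) • (-(Sa (y - S y))))‖ := by nlinarith
  refine h8.trans ?_
  have h9 : 3 * tt d / tt e * ‖x‖ = (tt d * (3 * ‖x‖)) / tt e := by ring
  rw [h9, le_div_iff₀ ht]
  linarith

/-- `κ(d,e)` -/
noncomputable def kap (d e : ℕ) : ℝ :=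
  (1 / 4 : ℝ) ^ d * (1 / 4 : ℝ) ^ e * (rr d * rr e) / (1 - rr d * rr e)

lemma kap_nonneg (d e : ℕ) : 0 ≤ kap d e := by
  unfold kap
  have h1 := one_sub_pos d e
  have h2 := rr_nonneg d
  have h3 := rr_nonneg e
  positivity

lemma kap_le (d e : ℕ) : kap d e ≤ dd d e := by
  refine le_trans ?_ (gm_le d e)
  unfold kap gm
  have h1 := one_sub_pos d e
  have h2 : rr d * rr e ≤ 1 := by linarith
  refine div_le_div_of_nonneg_right ?_ h1.le
  have : (0 : ℝ) ≤ (1 / 4 : ℝ) ^ d * (1 / 4 : ℝ) ^ e := by positivity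
  nlinarith

lemma S_Sa (x : HH) : S (Sa x) = x - ⟪eb 0, x⟫_ℂ • eb 0 := by
  apply HH_ext
  intro n
  rw [inner_eb_left, lp.coeFn_sub, lp.coeFn_smul, Pi.sub_apply, Pi.smul_apply, eb_apply]
  cases n with
  | zero => rw [S_zero]; simp
  | succ n => rw [S_succ, Sa_apply]; simp

lemma PQ_comm (d e : ℕ) (x : HH) :
    P (rr d) (Qr (rr e) x) - Qr (rr e) (P (rr d) x) =
      (-(rr d * rr e / (1 - rr d * rr e) : ℝ) : ℂ) • (⟪K (rr e), x⟫_ℂ • K (rr d)) := by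
  set A : HH →L[ℂ] HH := 1 - (rr d : ℂ) • S with hA
  set B : HH →L[ℂ] HH := 1 - (rr e : ℂ) • Sa with hB
  have hPA : P (rr d) * A = 1 := P_mul (rr_nonneg d) (rr_lt_one d)
  have hAP : A * P (rr d) = 1 := mul_P (rr_nonneg d) (rr_lt_one d)
  have hQB : Qr (rr e) * B = 1 := by
    ext1 z
    have h := Q_eq' (rr_nonneg e) (rr_lt_one e) z
    have h2 : (Qr (rr e) * B) z = Qr (rr e) (z - (rr e : ℂ) • Sa z) := rfl
    rw [h2, map_sub, map_smul, sub_eq_iff_eq_add]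
    exact h
  have hBQ : B * Qr (rr e) = 1 := by
    ext1 z
    have h := Q_eq (rr_nonneg e) (rr_lt_one e) z
    have h2 : (B * Qr (rr e)) z = Qr (rr e) z - (rr e : ℂ) • Sa (Qr (rr e) z) := rfl
    rw [h2, sub_eq_iff_eq_add]
    exact h
  have key : P (rr d) * Qr (rr e) - Qr (rr e) * P (rr d) =
      P (rr d) * Qr (rr e) * (A * B - B * A) * Qr (rr e) * P (rr d) := by
    have e1 : P (rr d) * Qr (rr e) * (A * B) * Qr (rr e) * P (rr d) = P (rr d) * Qr (rr e) := by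
      calc P (rr d) * Qr (rr e) * (A * B) * Qr (rr e) * P (rr d)
          = P (rr d) * Qr (rr e) * A * (B * Qr (rr e)) * P (rr d) := by simp only [mul_assoc]
        _ = P (rr d) * Qr (rr e) * (A * P (rr d)) := by rw [hBQ, mul_one]; simp only [mul_assoc]
        _ = P (rr d) * Qr (rr e) := by rw [hAP, mul_one]
    have e2 : P (rr d) * Qr (rr e) * (B * A) * Qr (rr e) * P (rr d) = Qr (rr e) * P (rr d) := by
      calc P (rr d) * Qr (rr e) * (B * A) * Qr (rr e) * P (rr d)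
          = P (rr d) * (Qr (rr e) * B) * A * Qr (rr e) * P (rr d) := by simp only [mul_assoc]
        _ = (P (rr d) * A) * Qr (rr e) * P (rr d) := by rw [hQB, mul_one]
        _ = Qr (rr e) * P (rr d) := by rw [hPA, one_mul]
    rw [mul_sub, sub_mul, sub_mul, e1, e2]
  have hcomm : ∀ z : HH, (A * B - B * A) z =
      (-((rr d : ℂ) * (rr e : ℂ))) • (⟪eb 0, z⟫_ℂ • eb 0) := by
    intro z
    have h2 : (A * B - B * A) z = (z - (rr e : ℂ) • Sa z - (rr d : ℂ) • S (z - (rr e : ℂ) • Sa z)) -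
      (z - (rr d : ℂ) • S z - (rr e : ℂ) • Sa (z - (rr d : ℂ) • S z)) := rfl
    rw [h2, map_sub, map_sub, map_smul, map_smul, Sa_S, S_Sa]
    module
  have h3 := congrArg (fun T : HH →L[ℂ] HH => T x) key
  have h4 : P (rr d) (Qr (rr e) x) - Qr (rr e) (P (rr d) x) =
      P (rr d) (Qr (rr e) ((A * B - B * A) (Qr (rr e) (P (rr d) x)))) := h3
  rw [h4, hcomm, map_smul, map_smul, map_smul, map_smul, Q_eb (rr_nonneg e) (rr_lt_one e)]
  have hne : (1 - (rr d : ℂ) * rr e) ≠ 0 := by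
    have := (one_sub_pos d e).ne'
    exact_mod_cast this
  have h5 : ⟪eb 0, Qr (rr e) (P (rr d) x)⟫_ℂ = (1 - (rr d : ℂ) * rr e)⁻¹ * ⟪K (rr e), x⟫_ℂ := by
    have e1 : ⟪eb 0, Qr (rr e) (P (rr d) x)⟫_ℂ = ⟪K (rr e), P (rr d) x⟫_ℂ := by
      unfold Qr; rw [adjoint_inner_right]; rfl
    have e2 : ⟪K (rr e), P (rr d) x⟫_ℂ = ⟪Qr (rr d) (K (rr e)), x⟫_ℂ := by
      unfold Qr; rw [adjoint_inner_left]
    have e3 : Qr (rr d) (K (rr e)) = (1 - (rr d : ℂ) * rr e)⁻¹ • K (rr e) := by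
      have h2 := Q_K (rr_nonneg d) (rr_lt_one d) (rr_nonneg e) (rr_lt_one e)
      calc Qr (rr d) (K (rr e)) = (1 - (rr d : ℂ) * rr e)⁻¹ • ((1 - (rr d : ℂ) * rr e) • Qr (rr d) (K (rr e))) := by
            rw [smul_smul, inv_mul_cancel₀ hne, one_smul]
        _ = (1 - (rr d : ℂ) * rr e)⁻¹ • K (rr e) := by rw [h2]
    rw [e1, e2, e3, inner_smul_left]
    simp
  rw [h5]
  have h6 : P (rr d) (eb 0) = K (rr d) := rfl
  rw [h6, smul_smul, smul_smul]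
  congr 1
  push_cast
  field_simp

lemma VU_comm (d e : ℕ) : V d * U e = U e * V d + (kap d e : ℂ) • rk (v d) (v e) := by
  ext1 x
  have h1 : (V d * U e) x = V d (U e x) := rfl
  have h2 : (U e * V d + (kap d e : ℂ) • rk (v d) (v e)) x =
    U e (V d x) + (kap d e : ℂ) • (⟪v e, x⟫_ℂ • v d) := rfl
  rw [h1, h2, V_apply, U_apply, U_apply, V_apply, map_sub, map_smul, smul_sub, map_smul]
  have h3 := PQ_comm d e x
  have h4 : P (rr d) (Qr (rr e) x) = Qr (rr e) (P (rr d) x) +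
      (-(rr d * rr e / (1 - rr d * rr e) : ℝ) : ℂ) • (⟪K (rr e), x⟫_ℂ • K (rr d)) := by
    rw [← h3]; abel
  rw [h4]
  unfold v
  rw [inner_smul_left, Complex.conj_ofReal]
  have h5 : (tt d : ℂ) = (((1 / 4 : ℝ) ^ d : ℝ) : ℂ) * (((1 / 4 : ℝ) ^ d : ℝ) : ℂ) := by
    rw [tt_eq_sq]; push_cast; ring
  have h6 : (tt e : ℂ) = (((1 / 4 : ℝ) ^ e : ℝ) : ℂ) * (((1 / 4 : ℝ) ^ e : ℝ) : ℂ) := by
    rw [tt_eq_sq]; push_cast; ring
  have h7 : (kap d e : ℂ) = (((1 / 4 : ℝ) ^ d : ℝ) : ℂ) * (((1 / 4 : ℝ) ^ e : ℝ) : ℂ) *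
      ((rr d * rr e / (1 - rr d * rr e) : ℝ) : ℂ) := by
    unfold kap; push_cast; ring
  rw [h5, h6, h7]
  module

end Pool.Agent.Helper280
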