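import Mathlib

/-!
Shift operator on `ℓ²(ℕ)`, resolvents, kernels.
-/

set_option autoImplicit false

namespace Pool.Agent.Helper280

open scoped InnerProductSpace ENNReal
open ContinuousLinearMap

/-- `ℓ²(ℕ)` -/
noncomputable abbrev HH := lp (fun _ : ℕ => ℂ) 2

/-- basis vectors -/
noncomputable def eb (j : ℕ) : HH := lp.single 2 j (1 : ℂ)

lemma eb_apply (j m : ℕ) : (eb j : ℕ → ℂ) m = if m = j then 1 else 0 := by
  unfold eb
  rw [lp.single_apply]
  by_cases h : m = j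
  · subst h; simp
  · simp [h]

lemma inner_eb_left (j : ℕ) (x : HH) : ⟪eb j, x⟫_ℂ = x j := by
  unfold eb
  rw [lp.inner_single_left]
  simp

lemma inner_eb_right (j : ℕ) (x : HH) : ⟪x, eb j⟫_ℂ = starRingEnd ℂ (x j) := by
  rw [← inner_conj_symm, inner_eb_left]

lemma HH_ext {x y : HH} (h : ∀ n, (x : ℕ → ℂ) n = y n) : x = y := by
  ext n; exact h n

lemma norm_sq_hasSum (x : HH) : HasSum (fun n => ‖(x : ℕ → ℂ) n‖ ^ 2) (‖x‖ ^ 2) := by
  have h := lp.hasSum_inner (𝕜 := ℂ) x x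
  have h2 := (Complex.hasSum_iff _ _).mp h
  have h3 := h2.1
  have e1 : (⟪x, x⟫_ℂ).re = ‖x‖ ^ 2 := by
    rw [inner_self_eq_norm_sq_to_K]
    norm_cast
  rw [e1] at h3
  refine h3.congr_fun (fun n => ?_) |> fun h => h
  rw [inner_self_eq_norm_sq_to_K]
  norm_cast

/-- underlying function of the shift -/
def shf (x : ℕ → ℂ) : ℕ → ℂ := fun n => match n with
  | 0 => 0
  | n + 1 => x n

lemma sq_summable (x : HH) : Summable (fun n => ‖(x : ℕ → ℂ) n‖ ^ 2) := (norm_sq_hasSum x).summable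

lemma memlp_of_sq (f : ℕ → ℂ) (h : Summable (fun n => ‖f n‖ ^ 2)) : Memℓp f 2 := by
  apply memℓp_gen
  simpa using h

lemma sq_summable_of_mem (f : ℕ → ℂ) (h : Memℓp f 2) : Summable (fun n => ‖f n‖ ^ 2) :=
  sq_summable (⟨f, h⟩ : HH)

lemma shf_summable (x : HH) : Summable (fun n => ‖shf x n‖ ^ 2) := by
  rw [← summable_nat_add_iff 1]
  exact sq_summable x

/-- the shift as a vector map -/
noncomputable def shv (x : HH) : HH := ⟨shf x, memlp_of_sq _ (shf_summable x)⟩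

lemma shv_zero (x : HH) : (shv x : ℕ → ℂ) 0 = 0 := rfl
lemma shv_succ (x : HH) (n : ℕ) : (shv x : ℕ → ℂ) (n + 1) = x n := rfl

lemma shv_norm (x : HH) : ‖shv x‖ = ‖x‖ := by
  have h1 := norm_sq_hasSum (shv x)
  have h2 := norm_sq_hasSum x
  have h3 : ‖shv x‖ ^ 2 = ‖x‖ ^ 2 := by
    rw [← h1.tsum_eq, ← h2.tsum_eq, h1.summable.tsum_eq_zero_add]
    simp [shv_zero, shv_succ]
  have := congrArg Real.sqrt h3
  rwa [Real.sqrt_sq (norm_nonneg _), Real.sqrt_sq (norm_nonneg _)] at this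

/-- the shift as a linear isometry -/
noncomputable def SI : HH →ₗᵢ[ℂ] HH where
  toFun := shv
  map_add' x y := by
    apply HH_ext
    intro n
    cases n with
    | zero => rw [shv_zero, lp.coeFn_add, Pi.add_apply, shv_zero, shv_zero, add_zero]
    | succ n => rw [shv_succ, lp.coeFn_add, lp.coeFn_add, Pi.add_apply, Pi.add_apply, shv_succ, shv_succ]
  map_smul' c x := by
    apply HH_ext
    intro n
    cases n with
    | zero => rw [shv_zero, lp.coeFn_smul, Pi.smul_apply, shv_zero, smul_zero]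
    | succ n => rw [shv_succ, lp.coeFn_smul, lp.coeFn_smul, Pi.smul_apply, Pi.smul_apply, shv_succ]; rfl
  norm_map' := shv_norm

/-- the shift -/
noncomputable def S : HH →L[ℂ] HH := SI.toContinuousLinearMap

lemma S_zero (x : HH) : (S x : ℕ → ℂ) 0 = 0 := rfl
lemma S_succ (x : HH) (n : ℕ) : (S x : ℕ → ℂ) (n + 1) = x n := rfl
lemma S_norm (x : HH) : ‖S x‖ = ‖x‖ := shv_norm x
lemma S_eb (n : ℕ) : S (eb n) = eb (n + 1) := by
  apply HH_ext
  intro m
  cases m with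
  | zero => rw [S_zero, eb_apply, if_neg (by omega)]
  | succ m => rw [S_succ, eb_apply, eb_apply]; simp

lemma S_inner (x y : HH) : ⟪S x, S y⟫_ℂ = ⟪x, y⟫_ℂ := SI.inner_map_map x y

/-- backward shift -/
noncomputable def Sa : HH →L[ℂ] HH := adjoint S

lemma Sa_S (x : HH) : Sa (S x) = x := by
  refine ext_inner_right ℂ (fun y => ?_)
  unfold Sa
  rw [adjoint_inner_left, S_inner]

lemma Sa_apply (x : HH) (n : ℕ) : (Sa x : ℕ → ℂ) n = x (n + 1) := by
  rw [← inner_eb_left]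
  unfold Sa
  rw [adjoint_inner_right, S_eb, inner_eb_left]

lemma Sa_norm_le (x : HH) : ‖Sa x‖ ≤ ‖x‖ := by
  have h1 := norm_sq_hasSum (Sa x)
  have h2 := norm_sq_hasSum x
  have h3 : ‖Sa x‖ ^ 2 ≤ ‖x‖ ^ 2 := by
    rw [← h1.tsum_eq, ← h2.tsum_eq, h2.summable.tsum_eq_zero_add]
    simp only [Sa_apply]
    have : 0 ≤ ‖(x : ℕ → ℂ) 0‖ ^ 2 := by positivity
    linarith
  exact (pow_le_pow_iff_left₀ (norm_nonneg _) (norm_nonneg _) two_ne_zero).mp h3

lemma Sa_eb_zero : Sa (eb 0) = 0 := by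
  apply HH_ext
  intro n
  rw [Sa_apply, eb_apply, if_neg (by omega)]
  rfl

/-- a fixed vector of the backward shift vanishes -/
lemma fixed_zero (u : HH) (h : Sa u = u) : u = 0 := by
  have h1 : ∀ n, (u : ℕ → ℂ) n = u 0 := by
    intro n
    induction n with
    | zero => rfl
    | succ n ih => rw [← ih, ← Sa_apply, h]
  have h2 := (sq_summable u).tendsto_atTop_zero
  have h3 : (fun n => ‖(u : ℕ → ℂ) n‖ ^ 2) = fun _ => ‖(u : ℕ → ℂ) 0‖ ^ 2 := by
    funext n; rw [h1 n]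
  rw [h3] at h2
  have h4 := tendsto_nhds_unique tendsto_const_nhds h2
  have h5 : (u : ℕ → ℂ) 0 = 0 := by
    have : ‖(u : ℕ → ℂ) 0‖ = 0 := by
      exact pow_eq_zero_iff (two_ne_zero) |>.mp h4
    exact norm_eq_zero.mp this
  apply HH_ext
  intro n
  rw [h1 n, h5]
  rfl

/-! ### Resolvents -/

/-- `(1 - r S)⁻¹` -/
noncomputable def P (r : ℝ) : HH →L[ℂ] HH := Ring.inverse (1 - (r : ℂ) • S)

lemma S_opnorm : ‖S‖ ≤ 1 := S.opNorm_le_bound zero_le_one (fun x => by rw [S_norm, one_mul])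

lemma isUnit_r (r : ℝ) (h0 : 0 ≤ r) (h1 : r < 1) : IsUnit (1 - (r : ℂ) • S) := by
  have : ‖(r : ℂ) • S‖ < 1 := by
    rw [norm_smul, Complex.norm_real, Real.norm_eq_abs, abs_of_nonneg h0]
    calc r * ‖S‖ ≤ r * 1 := mul_le_mul_of_nonneg_left S_opnorm h0
      _ < 1 := by linarith
  exact (Units.oneSub _ this).isUnit

section
variable {r : ℝ} (h0 : 0 ≤ r) (h1 : r < 1)
include h0 h1

lemma P_mul : P r * (1 - (r : ℂ) • S) = 1 := Ring.inverse_mul_cancel _ (isUnit_r r h0 h1)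
lemma mul_P : (1 - (r : ℂ) • S) * P r = 1 := Ring.mul_inverse_cancel _ (isUnit_r r h0 h1)

lemma P_eq (x : HH) : P r x = x + (r : ℂ) • S (P r x) := by
  have h : ((1 - (r : ℂ) • S) * P r) x = x := by rw [mul_P h0 h1]; rfl
  have h2 : P r x - (r : ℂ) • S (P r x) = x := h
  rw [sub_eq_iff_eq_add] at h2
  exact h2

lemma P_eq' (x : HH) : P r x = x + (r : ℂ) • P r (S x) := by
  have h : (P r * (1 - (r : ℂ) • S)) x = x := by rw [P_mul h0 h1]; rfl
  have h2 : P r (x - (r : ℂ) • S x) = x := h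
  rw [map_sub, map_smul, sub_eq_iff_eq_add] at h2
  exact h2

lemma P_comm_S (x : HH) : P r (S x) = S (P r x) := by
  have e1 := P_eq h0 h1 (S x)
  -- uniqueness: y = S x + r S y has the unique solution
  have e2 : S (P r x) = S x + (r : ℂ) • S (S (P r x)) := by
    conv_lhs => rw [P_eq h0 h1 x]
    rw [map_add, map_smul]
  have e3 : P r (S x) - S (P r x) = (r : ℂ) • S (P r (S x) - S (P r x)) := by
    rw [map_sub, smul_sub]
    conv_lhs => rw [e1, e2]
    abel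
  have e4 : ‖P r (S x) - S (P r x)‖ ≤ r * ‖P r (S x) - S (P r x)‖ := by
    conv_lhs => rw [e3]
    rw [norm_smul, S_norm, Complex.norm_real, Real.norm_eq_abs, abs_of_nonneg h0]
  have e5 : ‖P r (S x) - S (P r x)‖ = 0 := by
    have := norm_nonneg (P r (S x) - S (P r x))
    nlinarith
  exact sub_eq_zero.mp (norm_eq_zero.mp e5)

lemma P_norm (x : HH) : (1 - r) * ‖P r x‖ ≤ ‖x‖ := by
  have h := P_eq h0 h1 x
  have h2 : x = P r x - (r : ℂ) • S (P r x) := by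
    rw [eq_sub_iff_add_eq]; exact h.symm
  have h3 : ‖P r x‖ - ‖(r : ℂ) • S (P r x)‖ ≤ ‖x‖ := by
    conv_rhs => rw [h2]
    exact norm_sub_norm_le _ _
  rw [norm_smul, S_norm, Complex.norm_real, Real.norm_eq_abs, abs_of_nonneg h0] at h3
  linarith

end

/-- adjoint resolvent `(1 - r S^*)⁻¹` -/
noncomputable def Qr (r : ℝ) : HH →L[ℂ] HH := adjoint (P r)

section
variable {r : ℝ} (h0 : 0 ≤ r) (h1 : r < 1)
include h0 h1

lemma Q_eq (x : HH) : Qr r x = x + (r : ℂ) • Sa (Qr r x) := by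
  refine ext_inner_right ℂ (fun y => ?_)
  unfold Qr
  rw [adjoint_inner_left, inner_add_left, inner_smul_left]
  unfold Sa
  rw [adjoint_inner_left, adjoint_inner_left]
  conv_lhs => rw [P_eq' h0 h1 y]
  rw [inner_add_right, inner_smul_right]
  simp

lemma Q_eq' (x : HH) : Qr r x = x + (r : ℂ) • Qr r (Sa x) := by
  refine ext_inner_right ℂ (fun y => ?_)
  unfold Qr
  rw [adjoint_inner_left, inner_add_left, inner_smul_left, adjoint_inner_left]
  unfold Sa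
  rw [adjoint_inner_left]
  conv_lhs => rw [P_eq h0 h1 y]
  rw [inner_add_right, inner_smul_right]
  simp

lemma Q_comm_Sa (x : HH) : Qr r (Sa x) = Sa (Qr r x) := by
  refine ext_inner_right ℂ (fun y => ?_)
  unfold Qr Sa
  rw [adjoint_inner_left, adjoint_inner_left, adjoint_inner_left, adjoint_inner_left, P_comm_S h0 h1]

lemma Q_norm (x : HH) : (1 - r) * ‖Qr r x‖ ≤ ‖x‖ := by
  have h : Qr r x = x + (r : ℂ) • Sa (Qr r x) := Q_eq h0 h1 x
  have h2 : ‖Qr r x‖ ≤ ‖x‖ + ‖(r : ℂ) • Sa (Qr r x)‖ := by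
    conv_lhs => rw [h]
    exact norm_add_le _ _
  rw [norm_smul, Complex.norm_real, Real.norm_eq_abs, abs_of_nonneg h0] at h2
  have h3 := mul_le_mul_of_nonneg_left (Sa_norm_le (Qr r x)) h0
  linarith

end

/-- kernel vector `(r^n)` -/
noncomputable def K (r : ℝ) : HH := P r (eb 0)

section
variable {r : ℝ} (h0 : 0 ≤ r) (h1 : r < 1)
include h0 h1

lemma K_apply (n : ℕ) : (K r : ℕ → ℂ) n = (r : ℂ) ^ n := by
  have h := P_eq h0 h1 (eb 0)
  induction n with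
  | zero =>
    unfold K
    rw [h, lp.coeFn_add, lp.coeFn_smul, Pi.add_apply, Pi.smul_apply, S_zero, eb_apply]
    simp
  | succ n ih =>
    unfold K at ih ⊢
    rw [h, lp.coeFn_add, lp.coeFn_smul, Pi.add_apply, Pi.smul_apply, S_succ, eb_apply, ih]
    simp [pow_succ, mul_comm]

lemma Sa_K : Sa (K r) = (r : ℂ) • K r := by
  apply HH_ext
  intro n
  rw [Sa_apply, lp.coeFn_smul, Pi.smul_apply, K_apply h0 h1, K_apply h0 h1, smul_eq_mul, pow_succ,
    mul_comm]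

lemma Q_eb : Qr r (eb 0) = eb 0 := by
  rw [Q_eq' h0 h1, Sa_eb_zero, map_zero, smul_zero, add_zero]

end

lemma Q_K {q r : ℝ} (hq0 : 0 ≤ q) (hq1 : q < 1) (hr0 : 0 ≤ r) (hr1 : r < 1) :
    (1 - (q : ℂ) * r) • Qr q (K r) = K r := by
  have h := Q_eq' hq0 hq1 (K r)
  rw [Sa_K hr0 hr1, map_smul, smul_smul] at h
  rw [sub_smul, one_smul]
  exact sub_eq_of_eq_add h

lemma inner_K {q r : ℝ} (hq0 : 0 ≤ q) (hq1 : q < 1) (hr0 : 0 ≤ r) (hr1 : r < 1) :
    ⟪K r, K q⟫_ℂ = 1 / (1 - (q : ℂ) * r) := by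
  have hne : (1 - (q : ℂ) * r) ≠ 0 := by
    have : (1 - q * r : ℝ) ≠ 0 := by nlinarith
    exact_mod_cast this
  have h1 : ⟪Qr q (K r), eb 0⟫_ℂ = ⟪K r, K q⟫_ℂ := by
    unfold Qr
    rw [adjoint_inner_left]; rfl
  have h2 := Q_K hq0 hq1 hr0 hr1
  have h3 : Qr q (K r) = (1 - (q : ℂ) * r)⁻¹ • K r := by
    rw [← h2, smul_smul, inv_mul_cancel₀ hne, one_smul]
    rw [h2]
  rw [← h1, h3, inner_smul_left, inner_eb_right, K_apply hr0 hr1]
  simp

lemma norm_K_sq {r : ℝ} (h0 : 0 ≤ r) (h1 : r < 1) : ‖K r‖ ^ 2 = 1 / (1 - r ^ 2) := by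
  have h := inner_K h0 h1 h0 h1
  rw [inner_self_eq_norm_sq_to_K] at h
  have h2 : ((‖K r‖ ^ 2 : ℝ) : ℂ) = ((1 / (1 - r ^ 2) : ℝ) : ℂ) := by
    push_cast
    rw [show ((r : ℂ)) ^ 2 = (r : ℂ) * r by ring, ← h]
    norm_cast
  exact_mod_cast h2

end Pool.Agent.Helper280
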