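import Pool.Agent.Helper280.Build

/-!
Symbols, commutation with the shift, matrix entries, cyclicity.
-/

set_option autoImplicit false

namespace Pool.Agent.Helper280

open scoped InnerProductSpace ENNReal
open ContinuousLinearMap

lemma U_comm_Sa (e : ℕ) (x : HH) : U e (Sa x) = Sa (U e x) := by
  rw [U_apply, U_apply, map_sub, map_smul, Q_comm_Sa (rr_nonneg e) (rr_lt_one e)]

lemma V_comm_S (d : ℕ) (x : HH) : V d (S x) = S (V d x) := by
  rw [V_apply, V_apply, map_smul, P_comm_S (rr_nonneg d) (rr_lt_one d)]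

lemma HOp_comm_Sa (x : HH) : HOp (Sa x) = Sa (HOp x) := by
  have h1 := HOp_hasSum_apply (Sa x)
  have h2 := (HOp_hasSum_apply x).map Sa (ContinuousLinearMap.continuous _)
  refine h1.unique (h2.congr_fun (fun m => ?_) |> fun h => h)
  show (ww m : ℂ) • U (ff m) (Sa x) = Sa ((ww m : ℂ) • U (ff m) x)
  rw [map_smul, U_comm_Sa]

/-- the coefficients of `h` -/
noncomputable def hh : HH := adjoint HOp (eb 0)

lemma HOp_comm_S (x : HH) : HOp (S x) = S (HOp x) + ⟪Sa hh, x⟫_ℂ • eb 0 := by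
  have h1 : S (Sa (HOp (S x))) = S (HOp x) := by
    rw [← HOp_comm_Sa, Sa_S]
  rw [S_Sa] at h1
  have h2 : ⟪Sa hh, x⟫_ℂ = ⟪eb 0, HOp (S x)⟫_ℂ := by
    unfold hh Sa
    rw [adjoint_inner_left, adjoint_inner_left]
  rw [h2, ← h1]
  abel

lemma HOp_eb_zero : HOp (eb 0) = starRingEnd ℂ (hh 0) • eb 0 := by
  have h1 : S (Sa (HOp (eb 0))) = 0 := by
    rw [← HOp_comm_Sa, Sa_eb_zero, map_zero, map_zero]
  rw [S_Sa] at h1
  have h2 : ⟪eb 0, HOp (eb 0)⟫_ℂ = starRingEnd ℂ (hh 0) := by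
    have e1 : ⟪eb 0, HOp (eb 0)⟫_ℂ = ⟪hh, eb 0⟫_ℂ := by
      unfold hh; rw [adjoint_inner_left]
    rw [e1, inner_eb_right]
  rw [h2] at h1
  exact sub_eq_zero.mp h1

lemma V_eb (d : ℕ) : V d (eb 0) = (((1 / 4 : ℝ) ^ d : ℝ) : ℂ) • v d := by
  unfold v
  rw [V_apply, smul_smul, tt_eq_sq]
  push_cast
  rfl

lemma gg_term_norm (n : ℕ) : ‖(al n : ℂ) • V (cc n) (eb 0)‖ ≤ 1 * (1 / 2) ^ n := by
  rw [V_eb, norm_ofReal_smul _ (al_pos n).le, norm_ofReal_smul _ (by positivity)]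
  have h1 := v_norm (cc n)
  have h2 : al n * (1 / 4 : ℝ) ^ (cc n) ≤ (1 / 2) ^ n := by
    unfold al
    rw [quarter_pow, half_pow, four_pow, mul_one_div,
      div_le_div_iff₀ (by positivity) (by positivity), ← pow_add, one_mul]
    apply two_pow_le
    unfold cc
    nlinarith
  have h3 : 0 ≤ al n * (1 / 4 : ℝ) ^ (cc n) := mul_nonneg (al_pos n).le (by positivity)
  have h4 := norm_nonneg (v (cc n))
  nlinarith

/-- the coefficients of `g` -/
noncomputable def gg : HH := eb 0 + ∑' n, (al n : ℂ) • V (cc n) (eb 0)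

lemma gg_hasSum : HasSum (fun n => (al n : ℂ) • V (cc n) (eb 0)) (gg - eb 0) := by
  have : gg - eb 0 = ∑' n, (al n : ℂ) • V (cc n) (eb 0) := by unfold gg; abel
  rw [this]
  apply Summable.hasSum
  exact Summable.of_norm_bounded (geo_summable 1) (fun n => gg_term_norm n)

lemma gg_inner (y : HH) : HasSum (fun n => ⟪y, (al n : ℂ) • V (cc n) (eb 0)⟫_ℂ) (⟪y, gg⟫_ℂ - ⟪y, eb 0⟫_ℂ) := by
  rw [← inner_sub_right]
  exact gg_hasSum.map (innerSL ℂ y) (ContinuousLinearMap.continuous _)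

lemma AA_comm_S (x : HH) : AA (S x) = S (AA x) + ⟪Sa hh, x⟫_ℂ • gg := by
  refine ext_inner_left ℂ (fun y => ?_)
  have h1 := AA_hasSum (S x) y
  have h2 := AA_hasSum x (Sa y)
  have h3 := (gg_inner y).mul_left ⟪Sa hh, x⟫_ℂ
  have h4 : ∀ z, ⟪Sa y, z⟫_ℂ = ⟪y, S z⟫_ℂ := by
    intro z; unfold Sa; rw [adjoint_inner_left]
  have h5 := h2.add h3
  have h6 : ∀ n, ⟪y, (al n : ℂ) • V (cc n) (HOp (S x))⟫_ℂ =
      ⟪Sa y, (al n : ℂ) • V (cc n) (HOp x)⟫_ℂ + ⟪Sa hh, x⟫_ℂ * ⟪y, (al n : ℂ) • V (cc n) (eb 0)⟫_ℂ := by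
    intro n
    rw [HOp_comm_S, map_add, V_comm_S, map_smul, h4, map_smul, ← inner_smul_right, ← inner_add_right]
    congr 1
    module
  have h7 := h1.unique (h5.congr_fun (fun n => h6 n) |> fun h => h)
  rw [h4, h4, HOp_comm_S, inner_add_right, inner_smul_right] at h7
  rw [inner_add_right, inner_smul_right]
  linear_combination h7

lemma AA_eb_zero : AA (eb 0) = starRingEnd ℂ (hh 0) • gg := by
  refine ext_inner_left ℂ (fun y => ?_)
  have h1 := AA_hasSum (eb 0) y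
  have h3 := (gg_inner y).mul_left (starRingEnd ℂ (hh 0))
  have h6 : ∀ n, ⟪y, (al n : ℂ) • V (cc n) (HOp (eb 0))⟫_ℂ =
      starRingEnd ℂ (hh 0) * ⟪y, (al n : ℂ) • V (cc n) (eb 0)⟫_ℂ := by
    intro n
    rw [HOp_eb_zero, map_smul, ← inner_smul_right]
    congr 1
    module
  have h7 := h1.unique (h3.congr_fun (fun n => h6 n) |> fun h => h)
  rw [HOp_eb_zero, inner_smul_right] at h7
  rw [inner_smul_right]
  linear_combination h7

lemma AA_matrix (j m : ℕ) : (AA (eb j) : ℕ → ℂ) m =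
    ∑ n ∈ Finset.range (j + 1), (if j - n ≤ m then starRingEnd ℂ (hh n) * gg (m + n - j) else 0) := by
  induction j generalizing m with
  | zero =>
    rw [AA_eb_zero, lp.coeFn_smul, Pi.smul_apply]
    simp
  | succ j ih =>
    have h0 : AA (eb (j + 1)) = S (AA (eb j)) + starRingEnd ℂ (hh (j + 1)) • gg := by
      rw [← S_eb, AA_comm_S, inner_eb_right, Sa_apply]
    rw [h0, lp.coeFn_add, Pi.add_apply, lp.coeFn_smul, Pi.smul_apply, Finset.sum_range_succ]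
    cases m with
    | zero =>
      rw [S_zero, zero_add]
      have h1 : ∑ n ∈ Finset.range (j + 1), (if j + 1 - n ≤ 0 then
          starRingEnd ℂ (hh n) * gg (0 + n - (j + 1)) else 0) = 0 := by
        refine Finset.sum_eq_zero (fun n hn => ?_)
        rw [Finset.mem_range] at hn
        rw [if_neg (by omega)]
      rw [h1, zero_add, if_pos (by omega)]
      have : 0 + (j + 1) - (j + 1) = 0 := by omega
      rw [this, smul_eq_mul]
    | succ m =>
      rw [S_succ, ih]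
      congr 1
      · refine Finset.sum_congr rfl (fun n hn => ?_)
        rw [Finset.mem_range] at hn
        have e1 : (j - n ≤ m) ↔ (j + 1 - n ≤ m + 1) := by omega
        have e2 : m + n - j = m + 1 + n - (j + 1) := by omega
        rw [e2]
        by_cases h : j - n ≤ m
        · rw [if_pos h, if_pos (e1.mp h)]
        · rw [if_neg h, if_neg (fun h' => h (e1.mpr h'))]
      · rw [if_pos (by omega)]
        have : m + 1 + (j + 1) - (j + 1) = m + 1 := by omega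
        rw [this, smul_eq_mul]

/-! ### Cyclicity -/

/-- iterates of the backward shift -/
lemma Sa_iter (x : HH) (k n : ℕ) : ((Sa^[k]) x : ℕ → ℂ) n = x (n + k) := by
  induction k generalizing x with
  | zero => rfl
  | succ k ih =>
    rw [Function.iterate_succ_apply, ih, Sa_apply]
    congr 1

lemma inner_cond (a : HH) (c : HH) (k : ℕ)
    (h : ∑' n : ℕ, a n * starRingEnd ℂ (c (n + k)) = 0) : ⟪(Sa^[k]) c, a⟫_ℂ = 0 := by
  rw [lp.inner_eq_tsum]
  rw [← h]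
  refine tsum_congr (fun n => ?_)
  rw [Sa_iter]
  simp

lemma re_UQ {r : ℝ} (h0 : 0 ≤ r) (h1 : r < 1) (c : HH) :
    0 ≤ (⟪Qr r c, c⟫_ℂ).re := by
  set u := Qr r c with hu
  have h := Q_eq h0 h1 c
  rw [← hu] at h
  have hc : c = u - (r : ℂ) • Sa u := by rw [eq_sub_iff_add_eq]; exact h.symm
  have h2 : ⟪u, c⟫_ℂ = ⟪u, u⟫_ℂ - (r : ℂ) * ⟪u, Sa u⟫_ℂ := by
    conv_lhs => rw [hc]
    rw [inner_sub_right, inner_smul_right]
  rw [h2, Complex.sub_re, Complex.re_ofReal_mul]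
  have h3 : (⟪u, u⟫_ℂ).re = ‖u‖ ^ 2 := by
    rw [inner_self_eq_norm_sq_to_K]; norm_cast
  have h4 : (⟪u, Sa u⟫_ℂ).re ≤ ‖u‖ ^ 2 := by
    refine (Complex.re_le_norm _).trans ((norm_inner_le_norm _ _).trans ?_)
    have := Sa_norm_le u
    nlinarith [norm_nonneg u]
  rw [h3]
  nlinarith [sq_nonneg ‖u‖]

lemma U_eq_sub (e : ℕ) (c : HH) :
    U e c = (rr e : ℂ) • (Qr (rr e) c - Sa (Qr (rr e) c)) := by
  rw [U_apply', map_sub, Q_comm_Sa (rr_nonneg e) (rr_lt_one e)]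

lemma re_U (e : ℕ) (c : HH) : (1 + rr e) / 2 * (rr e * ‖Qr (rr e) c - Sa (Qr (rr e) c)‖ ^ 2) ≤
    (⟪U e c, c⟫_ℂ).re := by
  rw [U_eq_sub]
  set u := Qr (rr e) c with hu
  set r := rr e with hr
  have h0 : 0 ≤ r := rr_nonneg e
  have h1 : r < 1 := rr_lt_one e
  have h := Q_eq h0 h1 c
  rw [← hu] at h
  have hc : c = u - (r : ℂ) • Sa u := by rw [eq_sub_iff_add_eq]; exact h.symm
  set s := Sa u with hs
  have h2 : ⟪(r : ℂ) • (u - s), c⟫_ℂ = (r : ℂ) * (⟪u, u⟫_ℂ - (r : ℂ) * ⟪u, s⟫_ℂ - ⟪s, u⟫_ℂ + (r : ℂ) * ⟪s, s⟫_ℂ) := by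
    rw [inner_smul_left, Complex.conj_ofReal]
    conv_lhs => rw [hc]
    rw [inner_sub_left, inner_sub_right, inner_sub_right, inner_smul_right, inner_smul_right]
    ring
  rw [h2, Complex.re_ofReal_mul, Complex.add_re, Complex.sub_re, Complex.sub_re, Complex.re_ofReal_mul,
    Complex.re_ofReal_mul]
  have e1 : (⟪u, u⟫_ℂ).re = ‖u‖ ^ 2 := by
    rw [inner_self_eq_norm_sq_to_K]; norm_cast
  have e2 : (⟪s, s⟫_ℂ).re = ‖s‖ ^ 2 := by
    rw [inner_self_eq_norm_sq_to_K]; norm_cast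
  have e3 : (⟪s, u⟫_ℂ).re = (⟪u, s⟫_ℂ).re := by
    rw [← inner_conj_symm, Complex.conj_re]
  have e4 : ‖u - s‖ ^ 2 = ‖u‖ ^ 2 - 2 * (⟪u, s⟫_ℂ).re + ‖s‖ ^ 2 := by
    have := norm_sub_sq (𝕜 := ℂ) u s
    simpa using this
  rw [e1, e2, e3, e4]
  have h5 : ‖s‖ ^ 2 ≤ ‖u‖ ^ 2 := pow_le_pow_left₀ (norm_nonneg _) (Sa_norm_le u) 2
  have h6 : 0 ≤ r * ((1 - r) / 2 * (‖u‖ ^ 2 - ‖s‖ ^ 2)) := by
    apply mul_nonneg h0
    apply mul_nonneg
    · linarith
    · linarith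
  nlinarith

lemma HOp_inj (c : HH) (h : HOp c = 0) : c = 0 := by
  have h1 := (HOp_hasSum_apply c).map (innerSL ℂ c) (ContinuousLinearMap.continuous _)
  have h2 : HasSum (fun m => (⟪c, (ww m : ℂ) • U (ff m) c⟫_ℂ).re) 0 := by
    have h3 := (Complex.hasSum_iff _ _).mp h1
    have h4 := h3.1
    rw [h, map_zero, Complex.zero_re] at h4
    exact h4
  have hnn : ∀ m, 0 ≤ (⟪c, U (ff m) c⟫_ℂ).re := by
    intro m
    have e1 := re_U (ff m) c
    have e2 : (⟪c, U (ff m) c⟫_ℂ).re = (⟪U (ff m) c, c⟫_ℂ).re := by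
      rw [← inner_conj_symm, Complex.conj_re]
    rw [e2]
    refine le_trans ?_ e1
    have := rr_nonneg (ff m)
    positivity
  have h5 : ∀ m, 0 ≤ (⟪c, (ww m : ℂ) • U (ff m) c⟫_ℂ).re := by
    intro m
    rw [inner_smul_right, Complex.re_ofReal_mul]
    exact mul_nonneg (ww_pos m).le (hnn m)
  have h6 := (hasSum_zero_iff_of_nonneg h5).mp h2
  have h7 : (⟪c, (ww 0 : ℂ) • U (ff 0) c⟫_ℂ).re = 0 := congrFun h6 0
  rw [inner_smul_right, Complex.re_ofReal_mul] at h7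
  have h8 : (⟪c, U (ff 0) c⟫_ℂ).re = 0 := by
    rcases mul_eq_zero.mp h7 with h | h
    · exact absurd h (ww_pos 0).ne'
    · exact h
  have e2 : (⟪c, U (ff 0) c⟫_ℂ).re = (⟪U (ff 0) c, c⟫_ℂ).re := by
    rw [← inner_conj_symm, Complex.conj_re]
  rw [e2] at h8
  have h9 := re_U (ff 0) c
  rw [h8] at h9
  have h10 := rr_ge_of_one_le (ff_pos 0)
  have h11 : ‖Qr (rr (ff 0)) c - Sa (Qr (rr (ff 0)) c)‖ ^ 2 ≤ 0 := by
    by_contra hcon
    push Not at hcon
    have : 0 < (1 + rr (ff 0)) / 2 * (rr (ff 0) * ‖Qr (rr (ff 0)) c - Sa (Qr (rr (ff 0)) c)‖ ^ 2) := by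
      have : 0 < rr (ff 0) := by linarith
      positivity
    linarith
  have h12 : Qr (rr (ff 0)) c - Sa (Qr (rr (ff 0)) c) = 0 := by
    have : ‖Qr (rr (ff 0)) c - Sa (Qr (rr (ff 0)) c)‖ = 0 := by
      have := norm_nonneg (Qr (rr (ff 0)) c - Sa (Qr (rr (ff 0)) c))
      nlinarith
    exact norm_eq_zero.mp this
  have h13 : Qr (rr (ff 0)) c = 0 := fixed_zero _ (sub_eq_zero.mp h12).symm
  have h14 := Q_eq (rr_nonneg (ff 0)) (rr_lt_one (ff 0)) c
  rw [h13, map_zero, smul_zero, add_zero] at h14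
  exact h14.symm

lemma HOp_iter_Sa (c : HH) (k : ℕ) : HOp ((Sa^[k]) c) = (Sa^[k]) (HOp c) := by
  induction k generalizing c with
  | zero => rfl
  | succ k ih => rw [Function.iterate_succ_apply, Function.iterate_succ_apply, ih, HOp_comm_Sa]

lemma hh_cyclic (c : HH) (h : ∀ k : ℕ, ∑' n : ℕ, hh n * starRingEnd ℂ (c (n + k)) = 0) : c = 0 := by
  apply HOp_inj
  apply HH_ext
  intro k
  have h1 := inner_cond hh c k (h k)
  have h2 : ⟪hh, (Sa^[k]) c⟫_ℂ = 0 := by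
    rw [← inner_conj_symm, h1, map_zero]
  unfold hh at h2
  rw [adjoint_inner_left, HOp_iter_Sa, inner_eb_left, Sa_iter, zero_add] at h2
  rw [h2]
  rfl

lemma gg_cyclic (c : HH) (h : ∀ k : ℕ, ∑' n : ℕ, gg n * starRingEnd ℂ (c (n + k)) = 0) : c = 0 := by
  -- coordinatewise identity
  have h1 : ∀ k : ℕ, HasSum (fun n => ((al n : ℂ) * tt (cc n)) * (Qr (rr (cc n)) c : ℕ → ℂ) k)
      (-(c : ℕ → ℂ) k) := by
    intro k
    have h2 := gg_inner ((Sa^[k]) c)
    rw [inner_cond gg c k (h k), inner_eb_right, Sa_iter, zero_add, zero_sub] at h2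
    have h3 := h2.map (starRingEnd ℂ) Complex.continuous_conj
    rw [map_neg, Complex.conj_conj] at h3
    refine h3.congr_fun (fun n => ?_) |> fun h => h
    show _ = starRingEnd ℂ ⟪(Sa^[k]) c, (al n : ℂ) • V (cc n) (eb 0)⟫_ℂ
    rw [inner_conj_symm, inner_smul_left, V_apply, inner_smul_left, Complex.conj_ofReal, Complex.conj_ofReal]
    have e1 : ⟪P (rr (cc n)) (eb 0), (Sa^[k]) c⟫_ℂ = (Qr (rr (cc n)) c : ℕ → ℂ) k := by
      have e2 : ⟪P (rr (cc n)) (eb 0), (Sa^[k]) c⟫_ℂ = ⟪eb 0, Qr (rr (cc n)) ((Sa^[k]) c)⟫_ℂ := by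
        unfold Qr; rw [adjoint_inner_right]
      have e3 : ∀ (k : ℕ) (c : HH), Qr (rr (cc n)) ((Sa^[k]) c) = (Sa^[k]) (Qr (rr (cc n)) c) := by
        intro k
        induction k with
        | zero => intro c; rfl
        | succ k ih =>
          intro c
          rw [Function.iterate_succ_apply, Function.iterate_succ_apply, ih,
            Q_comm_Sa (rr_nonneg _) (rr_lt_one _)]
      rw [e2, e3, inner_eb_left, Sa_iter, zero_add]
    rw [e1]
    ring
  set c' := c - Sa c with hc'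
  have hnormQ : ∀ d : ℕ, 1 ≤ d → ‖Qr (rr d) c'‖ ≤ 3 * ‖c‖ := by
    intro d hd
    have e1 := congrArg norm (U_apply' d c)
    rw [norm_ofReal_smul _ (rr_nonneg d)] at e1
    have e2 : ‖U d c‖ ≤ 2 * ‖c‖ := ((U d).le_opNorm c).trans
      (mul_le_mul_of_nonneg_right (U_norm d) (norm_nonneg _))
    have e3 := rr_ge_of_one_le hd
    rw [← hc'] at e1
    have e4 := norm_nonneg (Qr (rr d) c')
    nlinarith [norm_nonneg c]
  have hcoef : ∀ n, al n * tt (cc n) ≤ (1 / 2) ^ n := by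
    intro n
    unfold al tt
    rw [sixteenth_pow, half_pow, four_pow, mul_one_div,
      div_le_div_iff₀ (by positivity) (by positivity), ← pow_add, one_mul]
    apply two_pow_le
    unfold cc
    nlinarith
  have hsum : Summable (fun n => ((al n * tt (cc n) : ℝ) : ℂ) • Qr (rr (cc n)) c') := by
    refine Summable.of_norm_bounded (geo_summable (3 * ‖c‖)) (fun n => ?_)
    have hp : 0 ≤ al n * tt (cc n) := mul_nonneg (al_pos n).le (tt_pos _).le
    rw [norm_ofReal_smul _ hp]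
    calc al n * tt (cc n) * ‖Qr (rr (cc n)) c'‖ ≤ (1 / 2) ^ n * (3 * ‖c‖) :=
          mul_le_mul (hcoef n) (hnormQ _ (cc_pos n)) (norm_nonneg _) (by positivity)
      _ = _ := by ring
  have hval : ∑' n, ((al n * tt (cc n) : ℝ) : ℂ) • Qr (rr (cc n)) c' = -c' := by
    apply HH_ext
    intro k
    have e1 := hsum.hasSum.map (innerSL ℂ (eb k)) (ContinuousLinearMap.continuous _)
    have e2 : HasSum (fun n => ((al n : ℂ) * tt (cc n)) * (Qr (rr (cc n)) c' : ℕ → ℂ) k)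
        ((∑' n, ((al n * tt (cc n) : ℝ) : ℂ) • Qr (rr (cc n)) c' : HH) k) := by
      rw [← inner_eb_left k]
      refine e1.congr_fun (fun n => ?_) |> fun h => h
      show _ = ⟪eb k, ((al n * tt (cc n) : ℝ) : ℂ) • Qr (rr (cc n)) c'⟫_ℂ
      rw [inner_smul_right, inner_eb_left]
      push_cast
      rfl
    have e3 := (h1 k).sub (h1 (k + 1))
    refine e2.unique ?_
    have e4 : -(c : ℕ → ℂ) k - -(c : ℕ → ℂ) (k + 1) = (-c' : HH) k := by
      rw [lp.coeFn_neg, Pi.neg_apply, hc', lp.coeFn_sub, Pi.sub_apply, Sa_apply]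
      ring
    rw [← e4]
    refine e3.congr_fun (fun n => ?_) |> fun h => h
    rw [hc', map_sub, Q_comm_Sa (rr_nonneg _) (rr_lt_one _), lp.coeFn_sub, Pi.sub_apply, Sa_apply]
    ring
  have hs2 := hsum.hasSum
  rw [hval] at hs2
  have h5 := hs2.map (innerSL ℂ c') (ContinuousLinearMap.continuous _)
  have h6 := ((Complex.hasSum_iff _ _).mp h5).1
  have h7 : 0 ≤ (innerSL ℂ c' (-c')).re := by
    refine h6.nonneg (fun n => ?_)
    show 0 ≤ (⟪c', ((al n * tt (cc n) : ℝ) : ℂ) • Qr (rr (cc n)) c'⟫_ℂ).re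
    rw [inner_smul_right, Complex.re_ofReal_mul]
    have e1 := re_UQ (rr_nonneg (cc n)) (rr_lt_one (cc n)) c'
    have e2 : (⟪c', Qr (rr (cc n)) c'⟫_ℂ).re = (⟪Qr (rr (cc n)) c', c'⟫_ℂ).re := by
      rw [← inner_conj_symm, Complex.conj_re]
    rw [e2]
    exact mul_nonneg (mul_nonneg (al_pos n).le (tt_pos _).le) e1
  have h8 : (innerSL ℂ c' (-c')).re = -‖c'‖ ^ 2 := by
    rw [innerSL_apply_apply, inner_neg_right, inner_self_eq_norm_sq_to_K]
    norm_cast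
  rw [h8] at h7
  have h9 : ‖c'‖ = 0 := by nlinarith [norm_nonneg c']
  have h10 : c - Sa c = 0 := norm_eq_zero.mp h9
  exact fixed_zero c (sub_eq_zero.mp h10).symm

end Pool.Agent.Helper280
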